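import Pool.Agent.H65.AF.WDefs

/-!
helper65 (project MP_28250c_AF): interfaces inside Part C (version 2, witness form).
-/

set_option autoImplicit false

namespace ACpFrege

/-- The good event: base event, top eigenvector delocalised, all entries at most `L`. -/
def GoodH {M : ℕ} (L : ℕ) (θ : ℝ) (H : Matrix (Fin M) (Fin M) ℂ) : Prop :=
  Base θ (gg M L) H ∧ (∀ u, ‖xi H 0 u‖ ^ 2 ≤ 1000 * Real.log M / M) ∧ ∀ u v, ‖H u v‖ ≤ L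

/-- Output of C6-C9 (helper96, helper7): on the base event the top eigenvector is delocalised, up to probability `1/(8M)`. -/
def OutD : Prop := ∀ q : ℕ, 3 ≤ q → ∃ M₀ : ℕ, ∀ M ≥ M₀, ∀ L : ℕ, L ^ 400 ≤ M → M < (L + 1) ^ 400 →
  ∀ b ≥ 1, ∀ [NeZero q], ∀ θ : ℝ, 1.98 * Real.sqrt M ≤ θ → θ ≤ 2.1 * Real.sqrt M →
    pr (fun o : Om b M q => Base θ (gg M L) (HH o) ∧ ∃ u, 1000 * Real.log M / M < ‖xi (HH o) 0 u‖ ^ 2) ≤ 1 / (8 * M)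

/-- Output of C0 (helper12): the entries are at most `L`, up to probability `1/(8M)`. -/
def OutE : Prop := ∀ q : ℕ, 3 ≤ q → ∃ M₀ : ℕ, ∀ M ≥ M₀, ∀ L : ℕ, L ^ 400 ≤ M → M < (L + 1) ^ 400 →
  ∀ b ≥ 1, ∀ [NeZero q], pr (fun o : Om b M q => ∃ u v, (L : ℝ) < ‖HH o u v‖) ≤ 1 / (8 * M)

/-- All of C0-C9: the good event has probability at least `1/(2M)` for some `θ`. -/
def OutG : Prop := ∀ q : ℕ, 3 ≤ q → ∃ M₀ : ℕ, ∀ M ≥ M₀, ∀ L : ℕ, L ^ 400 ≤ M → M < (L + 1) ^ 400 →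
  ∃ b₀ : ℕ, ∀ b ≥ b₀, ∀ [NeZero q], ∃ θ : ℝ, 1.98 * Real.sqrt M ≤ θ ∧ θ ≤ 2.1 * Real.sqrt M ∧
    1 / (2 * M : ℝ) ≤ pr (fun o : Om b M q => GoodH L θ (HH o))

end ACpFrege
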