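import Pool.Agent.H65.AF.PDefs

/-!
helper65 (project MP_28250c_AF): the interface between Part C (random matrices) and Part B (module), witness form (idea of
helper87): a set `A` of good exponent matrices with unit vectors `x a`, covariant under gauge changes, delocalised, and such that
good matrices which differ by few moves have close vectors up to a `q`-th root of unity. Nothing is required at the other
matrices: the module of Part B uses, at a matrix reached by at most `L` moves from a good one, the vector of that witness.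
-/

set_option autoImplicit false

namespace ACpFrege

/-- The full star of `v` (gauge change at `v`): the move of `y_(v,M)`. -/
def dl {M : ℕ} (q : ℕ) (v : Fin M) : Fin M → Fin M → ZMod q := mv q (.inr (v, Fin.last M))

/-- `x` with the coordinate `v` multiplied by `om 1`. -/
noncomputable def rot {M : ℕ} (q : ℕ) (v : Fin M) (x : Fin M → ℂ) : Fin M → ℂ := fun u => if u = v then om q 1 * x u else x u

/-- Antisymmetric exponent matrices. -/
def Asy {M q : ℕ} (a : Fin M → Fin M → ZMod q) : Prop := ∃ c : Fin M → Fin M → ZMod q, a = anti c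

/-- Witnesses. -/
structure Wit {M q : ℕ} (R : ℕ) (A : Set (Fin M → Fin M → ZMod q)) (x : (Fin M → Fin M → ZMod q) → Fin M → ℂ) : Prop where
  asy : ∀ a ∈ A, Asy a
  one : ∀ a ∈ A, nsq (x a) = 1
  sml : ∀ a ∈ A, ∀ v, ‖x a v‖ ^ 2 ≤ 1 / (20 * (q : ℝ)) ^ 2
  gau : ∀ a ∈ A, ∀ v, a + dl q v ∈ A ∧ ∃ k : ZMod q, x (a + dl q v) = om q k • rot q v (x a)
  clo : ∀ a ∈ A, ∀ l : List (Vr M × ZMod q), l.length ≤ R → a + tot l ∈ A →
    ∃ k : ZMod q, nsq (x (a + tot l) - om q k • x a) ≤ 1 / (20 * (q : ℝ)) ^ 2

open Classical in
/-- The statement of Part C (to be proved for every `q ≥ 3`): for all large `M` and all `R` with `R^400 ≤ M` there are witnesses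
with distance `R` whose number is at least `1 / M^2` times the number of all antisymmetric exponent matrices. -/
def PartW (q : ℕ) [NeZero q] : Prop :=
  ∃ M₀ : ℕ, ∀ M ≥ M₀, ∀ R : ℕ, R ^ 400 ≤ M → ∃ (A : Set (Fin M → Fin M → ZMod q)) (x : (Fin M → Fin M → ZMod q) → Fin M → ℂ),
    Wit R A x ∧
    Fintype.card (Fin M → Fin M → ZMod q) ≤
      M ^ 2 * (Finset.univ.filter fun c : Fin M → Fin M → ZMod q => anti c ∈ A).card

end ACpFrege
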