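import Pool.Agent.H65.AF.AAvg

/-!
Row AFGate: the gate lemma. Notation: `I(T)_i := krs (M i) H_T J b` (J = range r), `rk_i(T) = dim M_i - dim I(T)_i`.
PROOFS.
`krs_le`: clear. `rk_mono`: for `i ≤ i'`: `krs (M i) H J b = M i ⊓ krs (M i') H J b`, so `dim M_i + dim krs_(i') = dim (sup) + dim krs_i
 ≤ dim M_i' + dim krs_i`.  `krs_step`: `krs W H J b ≤ krs W (H * G) J b` when everything is inside the degree budget.
`gate_step`: A := krs (M i) H J b, B' := krs (M i) (H * (1 - q^(p-1))) J b, W := M (i-e), q = Σ_(c ∈ I) b c, I ⊆ J.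
 (1) A ≤ B'. (2) act q maps W into B': act (H(1-q^(p-1)) b_c) (act q m) = act (H (1-q^(p-1)) b_c q) m = 0 because (1-q^(p-1)) q = 0 as a
 function: q x is the image of an element of the prime field (a sum of 0's and 1's), so (q x)^p = q x. (3) m ∈ W, act q m ∈ A =>
 act (H q) m = 0: act (H b_c q) m = 0 for all c ∈ J, sum over c ∈ I: act (H q q) m = 0, apply act (q^(p-2)): act (H q^p) m = act (H q) m = 0.
 (4) dim (A ⊔ q W) = dim A + dim W - dim {m ∈ W : act q m ∈ A} ≥ dim A + dim W - dim kr W (H q).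
 So  dim A + dim W ≤ dim B' + dim kr W (H q).
`gate`: choose I s recursively. Claim for s ≤ t: there is `I` with values in subsets of range r such that
   3^s (dim M_((t-s)e) - dim krs (M ((t-s)e)) (hprod p s I b)) ≤ 2^s dim M_(te)   (s = 0: clear).
 Step: i = (t-s)e, W = M (i-e), H = hprod p s I b of degree ≤ s(p-1)e. `avg_ex` gives I' ⊆ range r with 2 dim kr W (H q) ≤ dim W + dim krs W H.
 `gate_step`: 2 dim krs_i(s) + 2 dim W ≤ 2 dim krs_i(s+1) + dim W + dim krs_(i-e)(s), i.e. 2 rk_i(s+1) + rk_(i-e)(s) ≤ 2 rk_i(s);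
 rk_(i-e)(s+1) ≤ rk_(i-e)(s) (krs_step), rk_(i-e)(s+1) ≤ rk_i(s+1) (rk_mono): 3 rk_(i-e)(s+1) ≤ 2 rk_i(s). (t-s)e - e = (t-(s+1))e.
 `I := Function.update I s I'` leaves `hprod p s I b` unchanged and hprod p (s+1) = hprod p s * (1 - q^(p-1)) (`Finset.prod_range_succ`).
-/

set_option autoImplicit false
open Finset

namespace ACpFrege

variable {K : Type} [Field K] {E : Type} [AddCommGroup E] [Module K E] {n : ℕ}

theorem rk_mono [FiniteDimensional K E] (s : Slow K E n) {i i' : ℕ} (h : i ≤ i') (h' : i' ≤ s.L) (H : Pt n → K)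
    (J : Finset ℕ) (b : ℕ → Pt n → K) :
    Module.finrank K (s.M i) + Module.finrank K (s.krs (s.M i') H J b) ≤
      Module.finrank K (s.M i') + Module.finrank K (s.krs (s.M i) H J b) := by
  have hM : s.M i ≤ s.M i' := M_le s h h'
  have h1 : s.M i ⊓ s.krs (s.M i') H J b = s.krs (s.M i) H J b := by
    unfold Slow.krs
    rw [← inf_assoc, inf_eq_left.mpr hM]
  have h2 := Submodule.finrank_sup_add_finrank_inf_eq (s.M i) (s.krs (s.M i') H J b)
  rw [h1] at h2
  have h3 : Module.finrank K ↥(s.M i ⊔ s.krs (s.M i') H J b) ≤ Module.finrank K (s.M i') :=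
    Submodule.finrank_mono (sup_le hM inf_le_left)
  omega

private theorem AGate_mem_krs (s : Slow K E n) (W : Submodule K E) (H : Pt n → K) (J : Finset ℕ) (b : ℕ → Pt n → K) (m : E) :
    m ∈ s.krs W H J b ↔ m ∈ W ∧ ∀ c ∈ J, s.act (H * b c) m = 0 := by
  unfold Slow.krs
  simp [Submodule.mem_inf, Submodule.mem_iInf]

theorem krs_step (s : Slow K E n) {i h e g : ℕ} (H G : Pt n → K) (J : Finset ℕ) (b : ℕ → Pt n → K)
    (hb : ∀ c ∈ J, b c ∈ Dg K n e) (hH : H ∈ Dg K n h) (hG : G ∈ Dg K n g) (hL : i + h + e + g ≤ s.L) :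
    s.krs (s.M i) H J b ≤ s.krs (s.M i) (H * G) J b := by
  intro m hm
  rw [AGate_mem_krs] at hm ⊢
  refine ⟨hm.1, fun c hc => ?_⟩
  have h1 := act_mul s hm.1 hG (Dg_mul hH (hb c hc)) (by omega)
  rw [hm.2 c hc, map_zero] at h1
  have h2 : H * G * b c = G * (H * b c) := by ring
  rw [h2, ← h1]

private theorem AGate_frob {p : ℕ} [Fact p.Prime] [CharP K p] (I : Finset ℕ) (b : ℕ → Pt n → K) (h01 : ∀ c ∈ I, Bv (b c))
    (x : Pt n) : ((∑ c ∈ I, b c) x) ^ p = (∑ c ∈ I, b c) x := by
  have h1 : ∃ k : ℕ, (∑ c ∈ I, b c) x = (k : K) := by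
    rw [Finset.sum_apply]
    refine Finset.sum_induction (fun c => b c x) (fun y => ∃ k : ℕ, y = (k : K)) ?_ ⟨0, by simp⟩ ?_
    · rintro a a' ⟨k, rfl⟩ ⟨k', rfl⟩
      exact ⟨k + k', by push_cast; ring⟩
    · intro c hc
      rcases h01 c hc x with h | h
      · exact ⟨0, by simp [h]⟩
      · exact ⟨1, by simp [h]⟩
  obtain ⟨k, hk⟩ := h1
  rw [hk]
  have := map_natCast (frobenius K p) k
  rwa [frobenius_def] at this

private theorem AGate_rank [FiniteDimensional K E] (f : E →ₗ[K] E) (S : Submodule K E) :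
    Module.finrank K ↥(S.map f) + Module.finrank K ↥(S ⊓ LinearMap.ker f) = Module.finrank K S := by
  have h1 := LinearMap.finrank_range_add_finrank_ker (f.domRestrict S)
  rw [LinearMap.range_domRestrict, LinearMap.ker_domRestrict] at h1
  rw [← h1]
  congr 1
  rw [← Submodule.map_comap_subtype, Submodule.finrank_map_subtype_eq]

theorem gate_step [FiniteDimensional K E] {p : ℕ} [Fact p.Prime] [CharP K p] (s : Slow K E n) {i h e : ℕ} (he : e ≤ i)
    (J I : Finset ℕ) (hI : I ⊆ J) (b : ℕ → Pt n → K) (hb : ∀ c ∈ J, b c ∈ Dg K n e) (h01 : ∀ c ∈ J, Bv (b c))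
    {H : Pt n → K} (hH : H ∈ Dg K n h) (hL : i + h + (p + 2) * e ≤ s.L) :
    Module.finrank K (s.krs (s.M i) H J b) + Module.finrank K (s.M (i - e)) ≤
      Module.finrank K (s.krs (s.M i) (H * (1 - (∑ c ∈ I, b c) ^ (p - 1))) J b) +
        Module.finrank K (s.kr (s.M (i - e)) (H * ∑ c ∈ I, b c)) := by
  have hp : 2 ≤ p := (Fact.out : p.Prime).two_le
  obtain ⟨p', rfl⟩ : ∃ p', p = p' + 2 := ⟨p - 2, by omega⟩
  have hpp : p' + 2 - 1 = p' + 1 := by omega
  rw [hpp]
  have hfr := AGate_frob (p := p' + 2) I b (fun c hc => h01 c (hI hc))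
  set q : Pt n → K := ∑ c ∈ I, b c with hq
  have hqd : q ∈ Dg K n e := Submodule.sum_mem _ fun c hc => hb c (hI hc)
  have hG : (1 - q ^ (p' + 1)) ∈ Dg K n ((p' + 1) * e) := Submodule.sub_mem _ (Dg_one _) (Dg_pow hqd _)
  have e1 : (p' + 2 + 2) * e = (p' + 1) * e + e + e + e := by ring
  rw [e1] at hL
  have hGq : (1 - q ^ (p' + 1)) * q = 0 := by
    funext x
    have := hfr x
    simp only [Pi.mul_apply, Pi.sub_apply, Pi.one_apply, Pi.pow_apply, Pi.zero_apply]
    calc (1 - q x ^ (p' + 1)) * q x = q x - q x ^ (p' + 2) := by ring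
      _ = 0 := by rw [this]; ring
  have hHp : q ^ p' * (H * q * q) = H * q := by
    funext x
    have := hfr x
    simp only [Pi.mul_apply, Pi.pow_apply]
    calc q x ^ p' * (H x * q x * q x) = H x * q x ^ (p' + 2) := by ring
      _ = H x * q x := by rw [this]
  -- names
  set A := s.krs (s.M i) H J b with hA
  set B := s.krs (s.M i) (H * (1 - q ^ (p' + 1))) J b with hB
  set W := s.M (i - e) with hW
  have hAB : A ≤ B := krs_step s H _ J b hb hH hG (by omega)
  have hqW : W.map (s.act q) ≤ B := by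
    rintro _ ⟨m, hm, rfl⟩
    rw [hB, AGate_mem_krs]
    constructor
    · have := act_mem s (j := i - e) hm hqd (by omega)
      rwa [Nat.sub_add_cancel he] at this
    · intro c hc
      rw [act_mul s (j := i - e) hm (Dg_mul (Dg_mul hH hG) (hb c hc)) hqd (by omega)]
      have : H * (1 - q ^ (p' + 1)) * b c * q = 0 := by
        have : H * (1 - q ^ (p' + 1)) * b c * q = H * b c * ((1 - q ^ (p' + 1)) * q) := by ring
        rw [this, hGq, mul_zero]
      rw [this, act_zero]
      rfl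
  -- N
  set N := W ⊓ A.comap (s.act q) with hN
  have hNk : N ≤ s.kr W (H * q) := by
    intro m hm
    rw [hN, Submodule.mem_inf, Submodule.mem_comap, hA, AGate_mem_krs] at hm
    unfold Slow.kr
    rw [Submodule.mem_inf, LinearMap.mem_ker]
    refine ⟨hm.1, ?_⟩
    have h1 : s.act (H * q * q) m = 0 := by
      have h2 : H * q * q = ∑ c ∈ I, H * b c * q := by
        rw [← Finset.sum_mul, ← Finset.mul_sum]
      rw [h2, act_sum, LinearMap.sum_apply]
      refine Finset.sum_eq_zero fun c hc => ?_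
      rw [← act_mul s (j := i - e) hm.1 (Dg_mul hH (hb c (hI hc))) hqd (by omega)]
      exact hm.2.2 c (hI hc)
    have h3 := act_mul s (j := i - e) hm.1 (Dg_pow hqd p') (Dg_mul (Dg_mul hH hqd) hqd) (by
      have : (p' + 1) * e = p' * e + e := by ring
      omega)
    rw [h1, map_zero, hHp] at h3
    exact h3.symm
  have r1 := AGate_rank (s.act q) W
  have r2 := AGate_rank (s.act q) N
  have hNW : N ⊓ LinearMap.ker (s.act q) = W ⊓ LinearMap.ker (s.act q) := by
    apply le_antisymm (inf_le_inf_right _ inf_le_left)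
    intro m hm
    rw [Submodule.mem_inf, LinearMap.mem_ker] at hm
    rw [Submodule.mem_inf, LinearMap.mem_ker]
    refine ⟨?_, hm.2⟩
    rw [Submodule.mem_inf, Submodule.mem_comap, hm.2]
    exact ⟨hm.1, Submodule.zero_mem _⟩
  have hmap : N.map (s.act q) = A ⊓ W.map (s.act q) := by
    apply le_antisymm
    · rintro _ ⟨m, hm, rfl⟩
      have hm' : m ∈ N := hm
      rw [hN, Submodule.mem_inf, Submodule.mem_comap] at hm'
      exact ⟨hm'.2, ⟨m, hm'.1, rfl⟩⟩
    · rintro y ⟨hy, ⟨m, hm, rfl⟩⟩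
      refine ⟨m, ?_, rfl⟩
      have : m ∈ N := by
        rw [hN, Submodule.mem_inf, Submodule.mem_comap]
        exact ⟨hm, hy⟩
      exact this
  rw [hNW, hmap] at r2
  have r3 := Submodule.finrank_sup_add_finrank_inf_eq A (W.map (s.act q))
  have r4 : Module.finrank K ↥(A ⊔ W.map (s.act q)) ≤ Module.finrank K B := Submodule.finrank_mono (sup_le hAB hqW)
  have r5 : Module.finrank K N ≤ Module.finrank K (s.kr W (H * q)) := Submodule.finrank_mono hNk
  omega

theorem hprod_dg {p t e r : ℕ} (I : ℕ → Finset ℕ) (hI : ∀ j, I j ⊆ Finset.range r) (b : ℕ → Pt n → K)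
    (hb : ∀ c < r, b c ∈ Dg K n e) : hprod p t I b ∈ Dg K n (t * ((p - 1) * e)) := by
  unfold hprod
  have h := Dg_prod (K := K) (n := n) (Finset.range t) (a := (p - 1) * e) (fun s => 1 - (∑ i ∈ I s, b i) ^ (p - 1)) (by
    intro s _
    refine Submodule.sub_mem _ (Dg_one _) (Dg_pow (Submodule.sum_mem _ fun c hc => hb c ?_) _)
    exact Finset.mem_range.mp (hI s hc))
  rwa [Finset.card_range] at h

private theorem AGate_claim [FiniteDimensional K E] {p : ℕ} [Fact p.Prime] [CharP K p] (s : Slow K E n) {t e r : ℕ}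
    (b : ℕ → Pt n → K) (hb : ∀ c < r, b c ∈ Dg K n e) (h01 : ∀ c < r, Bv (b c)) (hL : (t + 4) * (p * e) ≤ s.L) (k : ℕ)
    (hk : k ≤ t) : ∃ I : ℕ → Finset ℕ, (∀ j, I j ⊆ Finset.range r) ∧
      3 ^ k * Module.finrank K (s.M ((t - k) * e)) ≤
        3 ^ k * Module.finrank K (s.krs (s.M ((t - k) * e)) (hprod p k I b) (Finset.range r) b) +
          2 ^ k * Module.finrank K (s.M (t * e)) := by
  induction k with
  | zero =>
    refine ⟨fun _ => ∅, fun j => by simp, ?_⟩
    simp
  | succ k ih =>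
    obtain ⟨I, hI, hk'⟩ := ih (by omega)
    have hp : 2 ≤ p := (Fact.out : p.Prime).two_le
    have hbJ : ∀ c ∈ Finset.range r, b c ∈ Dg K n e := fun c hc => hb c (Finset.mem_range.mp hc)
    have h01J : ∀ c ∈ Finset.range r, Bv (b c) := fun c hc => h01 c (Finset.mem_range.mp hc)
    have hH := hprod_dg (p := p) (t := k) I hI b hb
    set H := hprod p k I b with hHdef
    have hie : (t - k) * e - e = (t - (k + 1)) * e := by
      have : t - k = (t - (k + 1)) + 1 := by omega
      rw [this, add_mul, one_mul]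
      simp
    have hei : e ≤ (t - k) * e := Nat.le_mul_of_pos_left e (by omega)
    -- degree budget
    have hbud : (t - k) * e + k * ((p - 1) * e) + (p + 2) * e ≤ s.L := by
      refine le_trans ?_ hL
      have e1 : (t - k) * e + k * ((p - 1) * e) + (p + 2) * e = ((t - k) + k * (p - 1) + (p + 2)) * e := by ring
      have e2 : (t + 4) * (p * e) = ((t + 4) * p) * e := by ring
      rw [e1, e2]
      apply Nat.mul_le_mul_right
      have a1 : t - k ≤ (t - k) * p := Nat.le_mul_of_pos_right _ (by omega)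
      have a2 : k * (p - 1) ≤ k * p := Nat.mul_le_mul_left _ (by omega)
      have a3 : (t - k) * p + k * p = t * p := by rw [← add_mul]; congr 1; omega
      have a4 : (t + 4) * p = t * p + 4 * p := by ring
      omega
    have hbud2 : ((t - k) * e - e) + k * ((p - 1) * e) + 3 * e ≤ s.L := by
      have : (p + 2) * e = p * e + 2 * e := by ring
      have h4 : 2 * e ≤ p * e := Nat.mul_le_mul_right _ hp
      omega
    obtain ⟨I', hI', hav⟩ := avg_ex s (s.M ((t - k) * e - e)) le_rfl (Finset.range r) b hbJ h01J hH hbud2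
    have hgs := gate_step (p := p) s hei (Finset.range r) I' hI' b hbJ h01J hH hbud
    -- the new choice
    refine ⟨Function.update I k I', ?_, ?_⟩
    · intro j
      by_cases hj : j = k
      · subst hj; simpa using hI'
      · rw [Function.update_of_ne hj]; exact hI j
    have hnew : hprod p (k + 1) (Function.update I k I') b = H * (1 - (∑ i ∈ I', b i) ^ (p - 1)) := by
      unfold hprod
      rw [Finset.prod_range_succ, Function.update_self, hHdef]
      congr 1
      unfold hprod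
      refine Finset.prod_congr rfl fun j hj => ?_
      rw [Function.update_of_ne (by have := Finset.mem_range.mp hj; omega)]
    rw [hnew, ← hie]
    have hGd : (1 - (∑ i ∈ I', b i) ^ (p - 1)) ∈ Dg K n ((p - 1) * e) :=
      Submodule.sub_mem _ (Dg_one _) (Dg_pow (Submodule.sum_mem _ fun c hc => hbJ c (hI' hc)) _)
    have hst := Submodule.finrank_mono (krs_step s (i := (t - k) * e - e) H (1 - (∑ i ∈ I', b i) ^ (p - 1)) (Finset.range r) b
      hbJ hH hGd (by
        have : (p + 2) * e = (p - 1) * e + 3 * e := by rw [← add_mul]; congr 1; omega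
        omega))
    have hLi : (t - k) * e ≤ s.L := by omega
    have hmo := rk_mono s (Nat.sub_le ((t - k) * e) e) hLi (H * (1 - (∑ i ∈ I', b i) ^ (p - 1))) (Finset.range r) b
    set x1 := Module.finrank K (s.M ((t - k) * e - e))
    set x2 := Module.finrank K ↥(s.krs (s.M ((t - k) * e - e)) (H * (1 - (∑ i ∈ I', b i) ^ (p - 1))) (Finset.range r) b)
    set x3 := Module.finrank K ↥(s.krs (s.M ((t - k) * e - e)) H (Finset.range r) b)
    set x4 := Module.finrank K ↥(s.krs (s.M ((t - k) * e)) (H * (1 - (∑ i ∈ I', b i) ^ (p - 1))) (Finset.range r) b)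
    set x5 := Module.finrank K ↥(s.krs (s.M ((t - k) * e)) H (Finset.range r) b)
    set x6 := Module.finrank K ↥(s.kr (s.M ((t - k) * e - e)) (H * ∑ i ∈ I', b i))
    set x7 := Module.finrank K (s.M ((t - k) * e))
    set x8 := Module.finrank K (s.M (t * e))
    -- hav : 2 x6 ≤ x1 + x3 ; hgs : x5 + x1 ≤ x4 + x6 ; hst : x3 ≤ x2 ; hmo : x1 + x4 ≤ x7 + x2 ; hk' : 3^k x7 ≤ 3^k x5 + 2^k x8
    have hkey : 3 * x1 + 2 * x5 ≤ 3 * x2 + 2 * x7 := by omega
    have e3 : 3 ^ (k + 1) * x1 = 3 ^ k * (3 * x1) := by ring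
    have e4 : 3 ^ (k + 1) * x2 = 3 ^ k * (3 * x2) := by ring
    have e5 : 2 ^ (k + 1) * x8 = 2 * (2 ^ k * x8) := by ring
    rw [e3, e4, e5]
    have h6 := Nat.mul_le_mul_left (3 ^ k) hkey
    have e7 : 3 ^ k * (3 * x1 + 2 * x5) = 3 ^ k * (3 * x1) + 2 * (3 ^ k * x5) := by ring
    have e8 : 3 ^ k * (3 * x2 + 2 * x7) = 3 ^ k * (3 * x2) + 2 * (3 ^ k * x7) := by ring
    rw [e7, e8] at h6
    omega

theorem gate [FiniteDimensional K E] {p : ℕ} [Fact p.Prime] [CharP K p] (s : Slow K E n) {t e r : ℕ} (b : ℕ → Pt n → K)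
    (hb : ∀ c < r, b c ∈ Dg K n e) (h01 : ∀ c < r, Bv (b c)) (hL : (t + 4) * (p * e) ≤ s.L) :
    ∃ I, s.Good p t e r b I := by
  obtain ⟨I, hI, h⟩ := AGate_claim (p := p) s b hb h01 hL t le_rfl
  refine ⟨I, hI, ?_⟩
  rw [Nat.sub_self, zero_mul] at h
  exact h

end ACpFrege
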