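import Pool.Agent.H65.AF.ACube

/-!
Row AFAct: the action of the functions of bounded degree on a filtered module.
PROOFS. `act` is linear in `f` (`cf` is linear). `act_mono`: `cf_mono`. `XS_mem`: by induction on the sorted list (every `X i` goes
one level up). `X_XS`: for `m ∈ M j`, `j + 1 + |S| ≤ L`: `X i (XS S m) = XS (insert i S) m`: move `X i` through the sorted product
with `comm` (all the vectors met are in levels `≤ j + |S|`), and `idem` when `i` is met. Then `XS_mul` by induction on the sorted
list of `S`. `act_mul`: write `f = Σ_(|S| ≤ a) cf f S • mono S`, `g` likewise (`cf_exp`, `cf_dg`), both sides are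
`Σ Σ cf f S * cf g T • XS (S ∪ T) m`.
-/

set_option autoImplicit false
open Finset

namespace ACpFrege

variable {K : Type} [Field K] {E : Type} [AddCommGroup E] [Module K E] {n : ℕ}

theorem act_add (s : Slow K E n) (f g : Pt n → K) : s.act (f + g) = s.act f + s.act g := by
  unfold Slow.act
  rw [← Finset.sum_add_distrib]
  refine Finset.sum_congr rfl fun S _ => ?_
  rw [cf_add, add_smul]

private theorem AAct_act_smul' (s : Slow K E n) (c : K) (f : Pt n → K) : s.act (c • f) = c • s.act f := by
  unfold Slow.act
  rw [Finset.smul_sum]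
  refine Finset.sum_congr rfl fun S _ => ?_
  rw [cf_smul, mul_smul]


theorem act_sub (s : Slow K E n) (f g : Pt n → K) : s.act (f - g) = s.act f - s.act g := by
  have h : f - g = f + (-1 : K) • g := by
    rw [neg_one_smul, sub_eq_add_neg]
  rw [h, act_add, AAct_act_smul', neg_one_smul, ← sub_eq_add_neg]


theorem act_neg (s : Slow K E n) (f : Pt n → K) : s.act (-f) = -s.act f := by
  have h : -f = (-1 : K) • f := by rw [neg_one_smul]
  rw [h, AAct_act_smul', neg_one_smul]


theorem act_smul (s : Slow K E n) (c : K) (f : Pt n → K) : s.act (c • f) = c • s.act f :=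
  AAct_act_smul' s c f


theorem act_zero (s : Slow K E n) : s.act 0 = 0 := by
  have h : (0 : Pt n → K) = (0 : K) • (0 : Pt n → K) := by rw [zero_smul]
  rw [h, act_smul, zero_smul]


theorem act_sum (s : Slow K E n) {ι : Type} (J : Finset ι) (F : ι → Pt n → K) : s.act (∑ i ∈ J, F i) = ∑ i ∈ J, s.act (F i) := by
  classical
  refine Finset.induction_on J ?_ ?_
  · rw [Finset.sum_empty, Finset.sum_empty, act_zero]
  · intro a J ha ih
    rw [Finset.sum_insert ha, Finset.sum_insert ha, act_add, ih]


theorem act_mono (s : Slow K E n) (S : Finset (Fin n)) : s.act (mono K S) = s.XS S := by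
  unfold Slow.act
  rw [Finset.sum_eq_single S]
  · rw [cf_mono, if_pos rfl, one_smul]
  · intro T _ hT
    rw [cf_mono, if_neg hT, zero_smul]
  · intro h
    exact absurd (Finset.mem_univ S) h

private theorem AAct_XS_empty (s : Slow K E n) : s.XS ∅ = LinearMap.id := by
  unfold Slow.XS
  rw [Finset.sort_empty]
  rfl

private theorem AAct_XS_single (s : Slow K E n) (i : Fin n) : s.XS {i} = s.X i := by
  unfold Slow.XS
  rw [Finset.sort_singleton]
  simp


theorem act_one (s : Slow K E n) : s.act 1 = LinearMap.id := by
  rw [← mono_empty, act_mono, AAct_XS_empty]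


theorem act_var (s : Slow K E n) (i : Fin n) : s.act (mono K {i}) = s.X i := by
  rw [act_mono, AAct_XS_single]


theorem M_le (s : Slow K E n) {i j : ℕ} (h : i ≤ j) (hj : j ≤ s.L) : s.M i ≤ s.M j := by
  induction j, h using Nat.le_induction with
  | base => exact le_refl _
  | succ k hk ih => exact (ih (by omega)).trans (s.up k (by omega))

private theorem AAct_list_mem (s : Slow K E n) {j : ℕ} {m : E} (hm : m ∈ s.M j) (l : List (Fin n)) (h : j + l.length ≤ s.L) :
    (l.map s.X).prod m ∈ s.M (j + l.length) := by
  induction l with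
  | nil => simpa using hm
  | cons a l ih =>
    rw [List.length_cons] at h ⊢
    rw [List.map_cons, List.prod_cons, Module.End.mul_apply]
    have h1 := ih (by omega)
    have h2 := s.map a (j + l.length) (by omega) _ h1
    have e : j + (l.length + 1) = j + l.length + 1 := by omega
    rw [e]
    exact h2

private theorem AAct_perm (s : Slow K E n) {j : ℕ} {m : E} (hm : m ∈ s.M j) {l l' : List (Fin n)} (hp : l.Perm l')
    (h : j + l.length ≤ s.L) : (l.map s.X).prod m = (l'.map s.X).prod m := by
  induction hp with
  | nil => rfl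
  | cons a hp ih =>
    rw [List.length_cons] at h
    rw [List.map_cons, List.prod_cons, Module.End.mul_apply, List.map_cons, List.prod_cons, Module.End.mul_apply,
      ih (by omega)]
  | swap a b l =>
    rw [List.length_cons, List.length_cons] at h
    simp only [List.map_cons, List.prod_cons, Module.End.mul_apply]
    exact s.comm b a (j + l.length) (by omega) _ (AAct_list_mem s hm l (by omega))
  | trans h1 h2 ih1 ih2 =>
    rw [ih1 h, ih2 (by rw [← h1.length_eq]; exact h)]

private theorem AAct_XS_insert (s : Slow K E n) {j : ℕ} {m : E} (hm : m ∈ s.M j) (i : Fin n) (S : Finset (Fin n))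
    (hi : i ∉ S) (h : j + 1 + S.card ≤ s.L) : s.X i (s.XS S m) = s.XS (insert i S) m := by
  have hp : (i :: S.sort (· ≤ ·)).Perm ((insert i S).sort (· ≤ ·)) := by
    rw [List.perm_ext_iff_of_nodup]
    · intro a
      rw [List.mem_cons, Finset.mem_sort, Finset.mem_sort, Finset.mem_insert]
    · rw [List.nodup_cons]
      exact ⟨by rw [Finset.mem_sort]; exact hi, Finset.sort_nodup _ _⟩
    · exact Finset.sort_nodup _ _
  have h1 := AAct_perm s hm hp (by rw [List.length_cons, Finset.length_sort]; omega)
  rw [List.map_cons, List.prod_cons, Module.End.mul_apply] at h1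
  exact h1


theorem XS_mem (s : Slow K E n) {j : ℕ} {m : E} (hm : m ∈ s.M j) (S : Finset (Fin n)) (h : j + S.card ≤ s.L) :
    s.XS S m ∈ s.M (j + S.card) := by
  have h1 := AAct_list_mem s hm (S.sort (· ≤ ·)) (by rw [Finset.length_sort]; exact h)
  rw [Finset.length_sort] at h1
  exact h1


theorem X_XS (s : Slow K E n) {j : ℕ} {m : E} (hm : m ∈ s.M j) (i : Fin n) (S : Finset (Fin n)) (h : j + 1 + S.card ≤ s.L) :
    s.X i (s.XS S m) = s.XS (insert i S) m := by
  by_cases hi : i ∈ S
  · have hc : (S.erase i).card + 1 = S.card := Finset.card_erase_add_one hi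
    have h1 := AAct_XS_insert s hm i (S.erase i) (Finset.notMem_erase i S) (by omega)
    rw [Finset.insert_erase hi] at h1
    have h2 := XS_mem s hm (S.erase i) (by omega)
    rw [Finset.insert_eq_of_mem hi, ← h1]
    exact s.idem i (j + (S.erase i).card) (by omega) _ h2
  · exact AAct_XS_insert s hm i S hi h


theorem XS_mul (s : Slow K E n) {j : ℕ} {m : E} (hm : m ∈ s.M j) (S T : Finset (Fin n)) (h : j + S.card + T.card ≤ s.L) :
    s.XS S (s.XS T m) = s.XS (S ∪ T) m := by
  revert h
  refine Finset.induction_on S ?_ ?_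
  · intro h
    rw [AAct_XS_empty, Finset.empty_union]
    rfl
  · intro a S ha ih h
    rw [Finset.card_insert_of_notMem ha] at h
    have h1 := XS_mem s hm T (by omega)
    have h2 := X_XS s h1 a S (by omega)
    rw [← h2, ih (by omega), Finset.insert_union]
    have h3 := Finset.card_union_le S T
    exact X_XS s hm a (S ∪ T) (by omega)


theorem act_mem (s : Slow K E n) {j a : ℕ} {m : E} (hm : m ∈ s.M j) {f : Pt n → K} (hf : f ∈ Dg K n a) (h : j + a ≤ s.L) :
    s.act f m ∈ s.M (j + a) := by
  unfold Slow.act
  rw [LinearMap.sum_apply]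
  refine Submodule.sum_mem _ fun S _ => ?_
  rw [LinearMap.smul_apply]
  by_cases hS : a < S.card
  · rw [cf_dg hf S hS, zero_smul]
    exact Submodule.zero_mem _
  · refine Submodule.smul_mem _ _ ?_
    exact M_le s (by omega) h (XS_mem s hm S (by omega))


theorem act_mul (s : Slow K E n) {j a b : ℕ} {m : E} (hm : m ∈ s.M j) {f g : Pt n → K} (hf : f ∈ Dg K n a)
    (hg : g ∈ Dg K n b) (h : j + a + b ≤ s.L) : s.act f (s.act g m) = s.act (f * g) m := by
  have hfg : f * g = ∑ S : Finset (Fin n), ∑ T : Finset (Fin n), (cf f S * cf g T) • mono K (S ∪ T) := by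
    conv_lhs => rw [cf_exp f, cf_exp g]
    rw [Finset.sum_mul]
    refine Finset.sum_congr rfl fun S _ => ?_
    rw [Finset.mul_sum]
    refine Finset.sum_congr rfl fun T _ => ?_
    rw [smul_mul_smul_comm, mono_mul]
  rw [hfg, act_sum, LinearMap.sum_apply]
  rw [Slow.act, LinearMap.sum_apply]
  refine Finset.sum_congr rfl fun S _ => ?_
  rw [act_sum, LinearMap.sum_apply, LinearMap.smul_apply]
  rw [Slow.act, LinearMap.sum_apply, map_sum, Finset.smul_sum]
  refine Finset.sum_congr rfl fun T _ => ?_
  rw [act_smul, act_mono, LinearMap.smul_apply, LinearMap.smul_apply, map_smul, smul_smul]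
  by_cases hS : a < S.card
  · rw [cf_dg hf S hS, zero_mul, zero_smul, zero_smul]
  by_cases hT : b < T.card
  · rw [cf_dg hg T hT, mul_zero, zero_smul, zero_smul]
  rw [XS_mul s hm S T (by omega)]


end ACpFrege
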