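import Pool.Agent.H65.AF.Assemble
import Pool.Agent.H56.AF.BMain
import Pool.Agent.H33.AF.C1
import Pool.Agent.H12.AF.C2
import Pool.Agent.H30.AF.Num
import Pool.Agent.H88.AF.C5
import Pool.Agent.H7.AF.OutD
import Pool.Agent.H7.AF.OutE
import Pool.Agent.H5.AF.HW
import Pool.Agent.H5.AF.Tail
import Pool.Agent.H12.AF.Row
import Pool.Agent.H14.AF.W1
import Pool.Agent.H14.AF.W2
import Pool.Agent.H34.AF.W4
import Pool.Agent.H87.AF.W3f

/-!
helper65 (MP_28250c_AF): the main theorem.
-/

set_option autoImplicit false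

namespace ACpFrege

theorem partC (q : ℕ) (hq : 3 ≤ q) [NeZero q] : PartW q := by
  have hR : RowS := rowS
  have hT : TailS := tail_of_hw (hw_of_row hR)
  have h1 : OutC1 := outC1
  have h2 : OutC2 := outC2
  have h4 : OutC4 := outC4 h1 h2
  have h5 : OutC5 := outC5_of h1 h2 h4
  have hD : OutD := outD (fun b M q _ o => hh_herm o) (hw_of_row hR) hT
  have hE : OutE := outE_of_tail hT
  have hG : OutG := outG_of h5 hD hE
  exact partW_of stW1 (stW4 hG stW2) q hq

theorem outBW : OutBW := by
  intro p _ q _ hq hpq M hM R L hR h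
  obtain ⟨A, x, hW, hc⟩ := h
  refine ACpB.partB p (by omega) hpq hM (by omega : 2 * L + 3 ≤ R) hW ?_
  convert hc

theorem mainX : StatementX :=
  assembleX (fun p _ => outAU p) outBW (partC 3 (le_refl 3)) (partC 4 (by norm_num))

end ACpFrege
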