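import Pool.Agent.H65.AF.ADefs

/-!
Row AFCube: functions on the cube, degrees, multilinear coefficients.
PROOFS. `mono_mul`: pointwise, (a product over `S ∪ T` of idempotents). `Dg_mul`: span induction in both arguments
(`Submodule.span_induction`), `mono S * mono T = mono (S ∪ T)`, `card_union_le`. `cf_mono`: the sum over `U ⊆ S` of
`(-1)^(|S|-|U|) [T ⊆ U]` is `[S = T]` (Mathlib: `Finset.sum_powerset_neg_one_pow_card...`, or pair `U` with `U △ {i}`, `i ∈ S \ T`).
`cf_exp`: both sides agree at every point `x` (the indicator of `x` is a set `X`, `mono S x = [S ⊆ X]`, Moebius inversion on the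
Boolean lattice), or: the map `f ↦ Σ cf f S • mono S` is linear and is the identity on the monomials, which span
(indicator of a point = product of `x_i` and `1 - x_i`).
-/

set_option autoImplicit false
open Finset

namespace ACpFrege

variable {K : Type} [Field K] {n : ℕ}

theorem mono_empty : mono K (∅ : Finset (Fin n)) = 1 := by
  funext x
  simp [mono]

theorem mono_mul (S T : Finset (Fin n)) : mono K S * mono K T = mono K (S ∪ T) := by
  funext x
  have h : ∀ U : Finset (Fin n), mono K U x = if ∀ i ∈ U, x i = true then 1 else 0 := by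
    intro U
    simp only [mono]
    by_cases hU : ∀ i ∈ U, x i = true
    · rw [if_pos hU]
      exact Finset.prod_eq_one fun i hi => by simp [hU i hi]
    · rw [if_neg hU]
      push Not at hU
      obtain ⟨i, hi, hx⟩ := hU
      exact Finset.prod_eq_zero hi (by simp [hx])
  rw [Pi.mul_apply, h, h, h]
  by_cases h1 : ∀ i ∈ S, x i = true
  · by_cases h2 : ∀ i ∈ T, x i = true
    · rw [if_pos h1, if_pos h2, if_pos, mul_one]
      intro i hi
      rcases Finset.mem_union.1 hi with h | h
      · exact h1 i h
      · exact h2 i h
    · rw [if_neg h2, mul_zero, if_neg]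
      exact fun h => h2 fun i hi => h i (Finset.mem_union_right _ hi)
  · rw [if_neg h1, zero_mul, if_neg]
    exact fun h => h1 fun i hi => h i (Finset.mem_union_left _ hi)

theorem mono_single (i : Fin n) : mono K {i} = fun x => if x i then 1 else 0 := by
  funext x
  simp [mono]

theorem Dg_mono {a b : ℕ} (h : a ≤ b) : Dg K n a ≤ Dg K n b := by
  refine Submodule.span_mono ?_
  rintro _ ⟨S, hS, rfl⟩
  exact ⟨S, hS.trans h, rfl⟩

theorem mono_mem {a : ℕ} (S : Finset (Fin n)) (h : S.card ≤ a) : mono K S ∈ Dg K n a :=
  Submodule.subset_span ⟨S, h, rfl⟩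

theorem Dg_mul {a b : ℕ} {f g : Pt n → K} (hf : f ∈ Dg K n a) (hg : g ∈ Dg K n b) : f * g ∈ Dg K n (a + b) := by
  unfold Dg at hf
  induction hf using Submodule.span_induction with
  | mem x hx =>
      obtain ⟨S, hS, rfl⟩ := hx
      unfold Dg at hg
      induction hg using Submodule.span_induction with
      | mem y hy =>
          obtain ⟨T, hT, rfl⟩ := hy
          rw [mono_mul]
          exact mono_mem _ ((Finset.card_union_le _ _).trans (by omega))
      | zero => rw [mul_zero]; exact Submodule.zero_mem _
      | add y z _ _ hy hz => rw [mul_add]; exact Submodule.add_mem _ hy hz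
      | smul c y _ hy => rw [mul_smul_comm]; exact Submodule.smul_mem _ _ hy
  | zero => rw [zero_mul]; exact Submodule.zero_mem _
  | add x y _ _ hx hy => rw [add_mul]; exact Submodule.add_mem _ hx hy
  | smul c x _ hx => rw [smul_mul_assoc]; exact Submodule.smul_mem _ _ hx

theorem Dg_one (a : ℕ) : (1 : Pt n → K) ∈ Dg K n a := by
  rw [← mono_empty]
  exact mono_mem _ (by simp)

theorem Dg_const (a : ℕ) (c : K) : (fun _ => c) ∈ Dg K n a := by
  have h : (fun _ => c : Pt n → K) = c • (1 : Pt n → K) := by
    funext x
    simp
  rw [h]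
  exact Submodule.smul_mem _ _ (Dg_one a)

theorem Dg_pow {a : ℕ} {f : Pt n → K} (hf : f ∈ Dg K n a) (k : ℕ) : f ^ k ∈ Dg K n (k * a) := by
  induction k with
  | zero => rw [pow_zero]; exact Dg_one _
  | succ k ih =>
      rw [pow_succ, Nat.succ_mul]
      exact Dg_mul ih hf

theorem Dg_prod {ι : Type} (s : Finset ι) {a : ℕ} (F : ι → Pt n → K) (hF : ∀ i ∈ s, F i ∈ Dg K n a) :
    ∏ i ∈ s, F i ∈ Dg K n (s.card * a) := by
  classical
  induction s using Finset.induction_on with
  | empty => rw [Finset.prod_empty]; exact Dg_one _
  | insert i I hi ih =>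
      rw [Finset.prod_insert hi, Finset.card_insert_of_notMem hi, Nat.succ_mul, Nat.add_comm]
      exact Dg_mul (hF i (Finset.mem_insert_self _ _)) (ih fun j hj => hF j (Finset.mem_insert_of_mem hj))

theorem cf_add (f g : Pt n → K) (S : Finset (Fin n)) : cf (f + g) S = cf f S + cf g S := by
  simp only [cf, Pi.add_apply, mul_add, Finset.sum_add_distrib]

theorem cf_smul (c : K) (f : Pt n → K) (S : Finset (Fin n)) : cf (c • f) S = c * cf f S := by
  simp only [cf, Pi.smul_apply, smul_eq_mul, Finset.mul_sum]
  exact Finset.sum_congr rfl fun T _ => by ring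

theorem cf_mono (S T : Finset (Fin n)) : cf (mono K T) S = if S = T then 1 else 0 := by
  classical
  have h : ∀ U : Finset (Fin n), mono K T (fun i => decide (i ∈ U)) = if T ⊆ U then 1 else 0 := by
    intro U
    simp only [mono]
    by_cases hU : T ⊆ U
    · rw [if_pos hU]
      exact Finset.prod_eq_one fun i hi => by simp [hU hi]
    · rw [if_neg hU]
      obtain ⟨i, hi, hx⟩ := Finset.not_subset.1 hU
      exact Finset.prod_eq_zero hi (by simp [hx])
  simp only [cf, h, mul_ite, mul_one, mul_zero]
  rw [← Finset.sum_filter]
  by_cases hST : T ⊆ S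
  · -- the sets between T and S
    have hbij : ∑ U ∈ S.powerset with T ⊆ U, (-1 : K) ^ (S.card - U.card) =
        ∑ V ∈ (S \ T).powerset, (-1 : K) ^ V.card := by
      refine Finset.sum_bij' (fun U _ => S \ U) (fun V _ => S \ V) ?_ ?_ ?_ ?_ ?_
      · intro U hU
        rw [Finset.mem_filter, Finset.mem_powerset] at hU
        rw [Finset.mem_powerset]
        exact Finset.sdiff_subset_sdiff le_rfl hU.2
      · intro V hV
        rw [Finset.mem_powerset] at hV
        rw [Finset.mem_filter, Finset.mem_powerset]
        refine ⟨Finset.sdiff_subset, ?_⟩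
        intro i hi
        rw [Finset.mem_sdiff]
        exact ⟨hST hi, fun h => (Finset.mem_sdiff.1 (hV h)).2 hi⟩
      · intro U hU
        rw [Finset.mem_filter, Finset.mem_powerset] at hU
        exact Finset.sdiff_sdiff_eq_self hU.1
      · intro V hV
        rw [Finset.mem_powerset] at hV
        exact Finset.sdiff_sdiff_eq_self (hV.trans Finset.sdiff_subset)
      · intro U hU
        rw [Finset.mem_filter, Finset.mem_powerset] at hU
        rw [Finset.card_sdiff_of_subset hU.1]
    rw [hbij]
    have h2 : ∑ V ∈ (S \ T).powerset, (-1 : K) ^ V.card = if S \ T = ∅ then 1 else 0 := by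
      have := Finset.sum_powerset_neg_one_pow_card (α := Fin n) (x := S \ T)
      have h3 : ((∑ V ∈ (S \ T).powerset, (-1 : ℤ) ^ V.card : ℤ) : K) = ((if S \ T = ∅ then 1 else 0 : ℤ) : K) := by
        rw [this]
      push_cast at h3
      exact h3
    rw [h2]
    by_cases hTS : S = T
    · rw [if_pos hTS, if_pos (by rw [hTS]; exact Finset.sdiff_self T)]
    · rw [if_neg hTS, if_neg]
      intro h
      exact hTS (Finset.Subset.antisymm (Finset.sdiff_eq_empty_iff_subset.1 h) hST)
  · rw [if_neg (fun h => hST (by rw [h])), Finset.filter_false_of_mem, Finset.sum_empty]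
    intro U hU h
    exact hST (h.trans (Finset.mem_powerset.1 hU))

private theorem ACube_top (f : Pt n → K) : f ∈ Dg K n ((Finset.univ : Finset (Fin n)).card * 1) := by
  classical
  have hi : ∀ x : Pt n, (∏ i ∈ (Finset.univ : Finset (Fin n)), (if x i then mono K {i} else 1 - mono K {i})) ∈
      Dg K n ((Finset.univ : Finset (Fin n)).card * 1) := by
    intro x
    refine Dg_prod _ _ fun i _ => ?_
    by_cases h : x i = true
    · rw [if_pos h]
      exact mono_mem _ (by simp)
    · rw [if_neg h]
      exact Submodule.sub_mem _ (Dg_one _) (mono_mem _ (by simp))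
  have hx : ∀ x y : Pt n, (∏ i ∈ (Finset.univ : Finset (Fin n)), (if x i then mono K {i} else 1 - mono K {i})) y =
      if x = y then 1 else 0 := by
    intro x y
    rw [Finset.prod_apply]
    by_cases h : x = y
    · subst h
      rw [if_pos rfl]
      refine Finset.prod_eq_one fun i _ => ?_
      by_cases h : x i = true <;> simp [h, mono_single]
    · rw [if_neg h]
      obtain ⟨i, hi⟩ := Function.ne_iff.1 h
      refine Finset.prod_eq_zero (Finset.mem_univ i) ?_
      by_cases h1 : x i = true
      · have h2 : y i = false := by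
          cases hy : y i
          · rfl
          · exact absurd (h1.trans hy.symm) hi
        simp [h1, h2, mono_single]
      · have h1' : x i = false := by simpa using h1
        have h2 : y i = true := by
          cases hy : y i
          · exact absurd (h1'.trans hy.symm) hi
          · rfl
        simp [h1', h2, mono_single]
  have hf : f = ∑ x : Pt n, f x • (∏ i ∈ (Finset.univ : Finset (Fin n)), (if x i then mono K {i} else 1 - mono K {i})) := by
    funext y
    rw [Finset.sum_apply]
    simp only [Pi.smul_apply, hx, smul_eq_mul, mul_ite, mul_one, mul_zero]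
    rw [Finset.sum_ite_eq' Finset.univ y, if_pos (Finset.mem_univ y)]
  rw [hf]
  exact Submodule.sum_mem _ fun x _ => Submodule.smul_mem _ _ (hi x)

theorem cf_exp (f : Pt n → K) : f = ∑ S : Finset (Fin n), cf f S • mono K S := by
  classical
  have hf := ACube_top f
  unfold Dg at hf
  induction hf using Submodule.span_induction with
  | mem x hx =>
      obtain ⟨T, -, rfl⟩ := hx
      simp only [cf_mono, ite_smul, one_smul, zero_smul]
      rw [Finset.sum_ite_eq' Finset.univ T, if_pos (Finset.mem_univ T)]
  | zero =>
      have h0 : ∀ S : Finset (Fin n), cf (0 : Pt n → K) S = 0 := fun S => by simp [cf]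
      simp only [h0, zero_smul, Finset.sum_const_zero]
  | add x y _ _ hx hy =>
      simp only [cf_add, add_smul, Finset.sum_add_distrib]
      rw [← hx, ← hy]
  | smul c x _ hx =>
      simp only [cf_smul, mul_smul]
      rw [← Finset.smul_sum, ← hx]

theorem cf_dg {d : ℕ} {f : Pt n → K} (hf : f ∈ Dg K n d) (S : Finset (Fin n)) (h : d < S.card) : cf f S = 0 := by
  unfold Dg at hf
  induction hf using Submodule.span_induction with
  | mem x hx =>
      obtain ⟨T, hT, rfl⟩ := hx
      rw [cf_mono, if_neg]
      rintro rfl
      omega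
  | zero => simp [cf]
  | add x y _ _ hx hy => rw [cf_add, hx, hy, add_zero]
  | smul c x _ hx => rw [cf_smul, hx, mul_zero]

end ACpFrege
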