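import Pool.Agent.H65.AF.ADefs

/-!
helper65 (MP_28250c_AF): the combination of two unsatisfiable CNFs with disjoint variables, `{C or D}`; slow modules are inherited
from both.
-/

set_option autoImplicit false

namespace ACpFrege

/-- The clause with all variables shifted by `n`. -/
def shiftC (n : ℕ) (C : List Lit) : List Lit := C.map fun l => (l.1 + n, l.2)

/-- All disjunctions of a clause of `F` and a shifted clause of `F'`. -/
def combC (n : ℕ) (F F' : CNF) : CNF := F.flatMap fun C => F'.map fun D => C ++ shiftC n D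

theorem mem_combC {n : ℕ} {F F' : CNF} {B : List Lit} :
    B ∈ combC n F F' ↔ ∃ C ∈ F, ∃ D ∈ F', B = C ++ shiftC n D := by
  unfold combC
  simp only [List.mem_flatMap, List.mem_map]
  constructor
  · rintro ⟨C, hC, D, hD, rfl⟩
    exact ⟨C, hC, D, hD, rfl⟩
  · rintro ⟨C, hC, D, hD, rfl⟩
    exact ⟨C, hC, D, hD, rfl⟩

theorem combC_unsat {n : ℕ} {F F' : CNF} (h : F.Unsat) (h' : F'.Unsat) : (combC n F F').Unsat := by
  intro a
  obtain ⟨C, hC, hC'⟩ := h a
  obtain ⟨D, hD, hD'⟩ := h' (fun i => a (i + n))
  refine ⟨C ++ shiftC n D, mem_combC.2 ⟨C, hC, D, hD, rfl⟩, ?_⟩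
  intro l hl
  rcases List.mem_append.1 hl with h1 | h1
  · exact hC' l h1
  · unfold shiftC at h1
    obtain ⟨l', h2, rfl⟩ := List.mem_map.1 h1
    exact hD' l' h2

theorem combC_size {n : ℕ} (F F' : CNF) : (combC n F F').size ≤ F.size * F'.size := by
  unfold CNF.size combC
  induction F with
  | nil => simp
  | cons C F ih =>
    rw [List.flatMap_cons, List.map_append, List.sum_append, List.map_cons, List.sum_cons, add_mul]
    refine add_le_add ?_ ih
    clear ih
    induction F' with
    | nil => simp
    | cons D F' ih =>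
      simp only [List.map_cons, List.sum_cons, mul_add]
      refine add_le_add ?_ ih
      have : (shiftC n D).length = D.length := by unfold shiftC; simp
      rw [List.length_append, this]
      nlinarith [Nat.zero_le (C.length * D.length)]

theorem combC_len {n a b : ℕ} {F F' : CNF} (h : ∀ C ∈ F, C.length ≤ a) (h' : ∀ C ∈ F', C.length ≤ b) :
    ∀ C ∈ combC n F F', C.length ≤ a + b := by
  intro B hB
  obtain ⟨C, hC, D, hD, rfl⟩ := mem_combC.1 hB
  have : (shiftC n D).length = D.length := by unfold shiftC; simp
  rw [List.length_append, this]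
  exact add_le_add (h C hC) (h' D hD)

theorem combC_vars {n n' : ℕ} {F F' : CNF} (h : ∀ C ∈ F, ∀ l ∈ C, l.1 < n) (h' : ∀ C ∈ F', ∀ l ∈ C, l.1 < n') :
    ∀ C ∈ combC n F F', ∀ l ∈ C, l.1 < n + n' := by
  intro B hB l hl
  obtain ⟨C, hC, D, hD, rfl⟩ := mem_combC.1 hB
  rcases List.mem_append.1 hl with h1 | h1
  · exact lt_of_lt_of_le (h C hC l h1) (Nat.le_add_right _ _)
  · unfold shiftC at h1
    obtain ⟨l', h2, rfl⟩ := List.mem_map.1 h1
    have := h' D hD l' h2
    show l'.1 + n < n + n'
    omega

section
variable {K : Type} [Field K] {E : Type} [AddCommGroup E] [Module K E]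

/-- The slow module with additional variables acting as 0, after the old ones. -/
noncomputable def Slow.extR {n : ℕ} (s : Slow K E n) (n' : ℕ) : Slow K E (n + n') where
  X := fun i => if h : i.1 < n then s.X ⟨i.1, h⟩ else 0
  M := s.M
  L := s.L
  up := s.up
  map := by
    intro i j hj m hm
    by_cases h : i.1 < n
    · simp only [h, dif_pos]
      exact s.map _ j hj m hm
    · simp only [h, dif_neg, not_false_iff, LinearMap.zero_apply]
      exact Submodule.zero_mem _
  idem := by
    intro i j hj m hm
    by_cases h : i.1 < n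
    · simp only [h, dif_pos]
      exact s.idem _ j hj m hm
    · simp only [h, dif_neg, not_false_iff, LinearMap.zero_apply]
  comm := by
    intro i i' j hj m hm
    by_cases h : i.1 < n
    · by_cases h' : i'.1 < n
      · simp only [h, h', dif_pos]
        exact s.comm _ _ j hj m hm
      · simp [h, h']
    · simp [h]

/-- The slow module with `n'` additional variables acting as 0, before the old ones. -/
noncomputable def Slow.extL {n : ℕ} (s : Slow K E n) (n' : ℕ) : Slow K E (n' + n) where
  X := fun i => if h : n' ≤ i.1 then s.X ⟨i.1 - n', by have := i.2; omega⟩ else 0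
  M := s.M
  L := s.L
  up := s.up
  map := by
    intro i j hj m hm
    by_cases h : n' ≤ i.1
    · simp only [h, dif_pos]
      exact s.map _ j hj m hm
    · simp only [h, dif_neg, not_false_iff, LinearMap.zero_apply]
      exact Submodule.zero_mem _
  idem := by
    intro i j hj m hm
    by_cases h : n' ≤ i.1
    · simp only [h, dif_pos]
      exact s.idem _ j hj m hm
    · simp only [h, dif_neg, not_false_iff, LinearMap.zero_apply]
  comm := by
    intro i i' j hj m hm
    by_cases h : n' ≤ i.1
    · by_cases h' : n' ≤ i'.1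
      · simp only [h, h', dif_pos]
        exact s.comm _ _ j hj m hm
      · simp [h, h']
    · simp [h]

theorem foldr_lit_zero {n : ℕ} (s : Slow K E n) (C : List Lit) : C.foldr s.lit 0 = 0 := by
  induction C with
  | nil => rfl
  | cons l C ih =>
    rw [List.foldr_cons, ih]
    unfold Slow.lit
    split_ifs <;> simp

/-- Variables acting as 0: the product of the operators `1 - literal` is the identity or 0. -/
theorem foldr_const {n : ℕ} (s : Slow K E n) (C : List Lit)
    (h : ∀ l ∈ C, ∀ m : E, s.lit l m = if l.2 then m else 0) (m : E) :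
    C.foldr s.lit m = m ∨ C.foldr s.lit m = 0 := by
  induction C with
  | nil => left; rfl
  | cons l C ih =>
    rw [List.foldr_cons]
    have h1 := ih (fun l' hl' => h l' (List.mem_cons_of_mem _ hl'))
    have h2 := h l List.mem_cons_self
    rcases h1 with h1 | h1
    · rw [h1, h2]
      split_ifs
      · left; rfl
      · right; rfl
    · rw [h1, h2]
      right
      split_ifs <;> rfl

end

theorem slow_combL {p n n' L A : ℕ} {F F' : CNF} (h : HasSlow p n F L A)
    (hF : ∀ C ∈ F, ∀ l ∈ C, l.1 < n) : HasSlow p (n + n') (combC n F F') L A := by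
  obtain ⟨K, iK, iC, E, iE, iM, iF, s, hL, h0, hA, hC⟩ := h
  refine ⟨K, iK, iC, E, iE, iM, iF, s.extR n', hL, h0, hA, ?_⟩
  intro B hB j hj m hm
  obtain ⟨C, hC', D, hD, rfl⟩ := mem_combC.1 hB
  rw [List.foldr_append]
  have e1 : ∀ (C : List Lit) (m : E), (∀ l ∈ C, l.1 < n) → C.foldr (s.extR n').lit m = C.foldr s.lit m := by
    intro C
    induction C with
    | nil => intro m _; rfl
    | cons l C ih =>
      intro m hl
      rw [List.foldr_cons, List.foldr_cons, ih m (fun l' hl' => hl l' (List.mem_cons_of_mem _ hl'))]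
      have h1 : l.1 < n := hl l List.mem_cons_self
      have h2 : l.1 < n + n' := by omega
      unfold Slow.lit
      simp [h1, h2, Slow.extR]
  rw [e1 C _ (hF C hC')]
  have e2 := foldr_const (s.extR n') (shiftC n D) (by
    intro l hl m'
    unfold shiftC at hl
    obtain ⟨l', hl', rfl⟩ := List.mem_map.1 hl
    unfold Slow.lit
    have h3 : ¬ (l'.1 + n < n) := by omega
    by_cases h4 : l'.1 + n < n + n'
    · simp [h4, h3, Slow.extR]
    · simp [h4]) m
  rcases e2 with e2 | e2
  · rw [e2]
    have h5 : C.length ≤ (C ++ shiftC n D).length := by simp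
    exact hC C hC' j (by omega) m hm
  · rw [e2, foldr_lit_zero]

theorem slow_combR {p n n' L A : ℕ} {F F' : CNF} (h : HasSlow p n F' L A) (hF' : ∀ C ∈ F', ∀ l ∈ C, l.1 < n) : HasSlow p (n' + n) (combC n' F F') L A := by
  obtain ⟨K, iK, iC, E, iE, iM, iF, s, hL, h0, hA, hC⟩ := h
  refine ⟨K, iK, iC, E, iE, iM, iF, s.extL n', hL, h0, hA, ?_⟩
  intro B hB j hj m hm
  obtain ⟨C, hC', D, hD, rfl⟩ := mem_combC.1 hB
  rw [List.foldr_append]
  have e1 : ∀ (D : List Lit) (m : E), (∀ l ∈ D, l.1 < n) →
      (shiftC n' D).foldr (s.extL n').lit m = D.foldr s.lit m := by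
    intro D
    induction D with
    | nil => intro m _; rfl
    | cons l D ih =>
      intro m hl
      have h0' : shiftC n' (l :: D) = (l.1 + n', l.2) :: shiftC n' D := rfl
      rw [h0', List.foldr_cons, List.foldr_cons, ih m (fun l' hl' => hl l' (List.mem_cons_of_mem _ hl'))]
      have h1 : l.1 < n := hl l List.mem_cons_self
      have h2 : l.1 + n' < n' + n := by omega
      unfold Slow.lit
      simp [h1, h2, Slow.extL]
  rw [e1 D _ (hF' D hD)]
  have h5 : D.length ≤ (C ++ shiftC n' D).length := by simp [shiftC]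
  rw [hC D hD j (by omega) m hm, foldr_lit_zero]

end ACpFrege
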