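import Pool.Agent.H65.AF.Final
import Pool.Agent.H65.AF.Num
import Pool.Agent.H65.AF.Comb
import Pool.Agent.H98.AF.AOut
import Pool.Agent.H56.AF.Cnf

/-!
helper65 (MP_28250c_AF): the final assembly.
-/

set_option autoImplicit false

namespace ACpFrege

open ACpB

theorem ASM_length {M q : ℕ} (hq : q ≤ 4) : ∀ C ∈ ASM M q, C.length ≤ 4 := by
  have h1 : ∀ (ν : Vr M), ∀ C ∈ oneC q ν, C.length ≤ 4 := by
    intro ν C hC
    unfold oneC at hC
    rw [List.mem_cons] at hC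
    rcases hC with rfl | hC
    · unfold vals
      simpa using hq
    · simp only [List.mem_flatMap, List.mem_map] at hC
      obtain ⟨_, _, _, _, rfl⟩ := hC
      simp
  have h2 : ∀ (ν : Vr M) (c : ZMod q), ∀ C ∈ cstC q ν c, C.length ≤ 4 := by
    intro ν c C hC
    unfold cstC at hC
    rw [List.mem_singleton] at hC
    subst hC
    simp
  have h3 : ∀ (ν₁ ν₂ ν₃ : Vr M), ∀ C ∈ addC q ν₁ ν₂ ν₃, C.length ≤ 4 := by
    intro ν₁ ν₂ ν₃ C hC
    unfold addC at hC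
    simp only [List.mem_flatMap, List.mem_map] at hC
    obtain ⟨_, _, _, _, _, _, rfl⟩ := hC
    simp
  intro C hC
  unfold ASM at hC
  simp only [List.mem_append, List.mem_flatMap] at hC
  rcases hC with ((⟨ν, _, hC⟩ | ⟨v, _, (hC | hC) | hC⟩) | ⟨u, _, v, _, hC⟩) | ⟨v, _, t, _, hC⟩
  · exact h1 ν C hC
  · exact h2 _ _ C hC
  · exact h2 _ _ C hC
  · exact h2 _ _ C hC
  · exact h3 _ _ _ C hC
  · exact h3 _ _ _ C hC

/-- The CNFs. -/
def FF (n : ℕ) : CNF :=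
  if 1 ≤ Nat.sqrt (n / 100) then combC (nv (Nat.sqrt (n / 100)) 3) (ASM (Nat.sqrt (n / 100)) 3) (ASM (Nat.sqrt (n / 100)) 4)
  else [[]]

private theorem nv_le {n M : ℕ} (hM : 1 ≤ M) (h : M * M ≤ n / 100) : nv M 3 + nv M 4 ≤ n := by
  unfold nv
  have h1 : 100 * (M * M) ≤ n := by omega
  nlinarith [Nat.mul_le_mul_left M hM]

private theorem size_num {n M : ℕ} (hM : M ≤ n) :
    (50 * (3 + 1) ^ 3 * (M + 1) ^ 2) * (50 * (4 + 1) ^ 3 * (M + 1) ^ 2) ≤ (n + 2) ^ 30 := by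
  have h1 : (M + 1) ^ 4 ≤ (n + 2) ^ 4 := Nat.pow_le_pow_left (by omega) 4
  have h2 : 2 ^ 26 ≤ (n + 2) ^ 26 := Nat.pow_le_pow_left (by omega) 26
  calc (50 * (3 + 1) ^ 3 * (M + 1) ^ 2) * (50 * (4 + 1) ^ 3 * (M + 1) ^ 2) = 20000000 * (M + 1) ^ 4 := by ring
    _ ≤ 2 ^ 26 * (M + 1) ^ 4 := Nat.mul_le_mul_right _ (by norm_num)
    _ ≤ (n + 2) ^ 26 * (n + 2) ^ 4 := Nat.mul_le_mul h2 h1
    _ = (n + 2) ^ 30 := by ring

theorem FF_ok (n : ℕ) : (FF n).Unsat ∧ (FF n).size ≤ (n + 2) ^ 30 ∧ ∀ C ∈ FF n, C.length ≤ 8 ∧ ∀ l ∈ C, l.1 < n := by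
  by_cases h : 1 ≤ Nat.sqrt (n / 100)
  · unfold FF
    rw [if_pos h]
    set M := Nat.sqrt (n / 100) with hM
    have hMM : M * M ≤ n / 100 := Nat.sqrt_le _
    have hMn : M ≤ n := by nlinarith [Nat.div_le_self n 100]
    refine ⟨combC_unsat (ASM_unsat (by norm_num) h) (ASM_unsat (by norm_num) h), ?_, ?_⟩
    · exact (combC_size _ _).trans ((Nat.mul_le_mul ASM_size ASM_size).trans (size_num hMn))
    · intro C hC
      refine ⟨?_, ?_⟩
      · exact combC_len (a := 4) (b := 4) (ASM_length (by norm_num)) (ASM_length (by norm_num)) C hC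
      · intro l hl
        have h1 := combC_vars ASM_vars ASM_vars C hC l hl
        exact lt_of_lt_of_le h1 (nv_le h hMM)
  · unfold FF
    rw [if_neg h]
    refine ⟨?_, ?_, ?_⟩
    · intro a
      exact ⟨[], by simp, by simp⟩
    · simp only [CNF.size, List.map_cons, List.map_nil, List.length_nil, List.sum_cons, List.sum_nil]
      exact Nat.one_le_pow _ _ (by omega)
    · intro D hD
      simp only [List.mem_singleton] at hD
      subst hD
      simp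

/-- The interface to Part B. -/
def OutBW : Prop :=
  ∀ (p : ℕ) [Fact p.Prime] (q : ℕ) [NeZero q], (q = 3 ∨ q = 4) → q.Coprime p → ∀ (M : ℕ), 1 ≤ M → ∀ (R L : ℕ), 2 * L + 8 ≤ R →
    (∃ (A : Set (Fin M → Fin M → ZMod q)) (x : (Fin M → Fin M → ZMod q) → Fin M → ℂ), Wit R A x ∧
      Fintype.card (Fin M → Fin M → ZMod q) ≤
        M ^ 2 * (@Finset.filter _ (fun c : Fin M → Fin M → ZMod q => anti c ∈ A) (Classical.decPred _) Finset.univ).card) →
    HasSlow p (nv M q) (ASM M q) L (M ^ 2)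

theorem assembleX (hA : ∀ (p : ℕ) [Fact p.Prime], OutAU p) (hB : OutBW) (h3 : PartW 3) (h4 : PartW 4) : StatementX := by
  refine ⟨FF, 30, FF_ok, ?_⟩
  intro p hp S hS
  have : Fact p.Prime := ⟨hp⟩
  obtain ⟨C0, hC0⟩ := hA p S hS 8
  obtain ⟨M3, hM3⟩ := h3
  obtain ⟨M4, hM4⟩ := h4
  obtain ⟨n₀, hn₀⟩ := num_ex p (C0 + 1) (max M3 M4) hp.one_lt.le (by omega)
  refine ⟨n₀, fun n hn d hd π hπ => ?_⟩
  obtain ⟨k1, k2, R, L, t, N, k3, k4, k5, k6, k7, k8⟩ := hn₀ n hn d hd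
  have hFF : FF n = combC (nv (Nat.sqrt (n / 100)) 3) (ASM (Nat.sqrt (n / 100)) 3) (ASM (Nat.sqrt (n / 100)) 4) := by
    unfold FF
    rw [if_pos k2]
  have hs : HasSlow p (nv (Nat.sqrt (n / 100)) 3 + nv (Nat.sqrt (n / 100)) 4) (FF n) L (Nat.sqrt (n / 100) ^ 2) := by
    rw [hFF]
    by_cases hp3 : p = 3
    · have hco : Nat.Coprime 4 p := by subst hp3; norm_num
      refine slow_combR (hB p 4 (Or.inr rfl) hco _ k2 R L k4 ?_) ASM_vars
      exact hM4 _ (le_trans (le_max_right _ _) k1) R k3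
    · have hco : Nat.Coprime 3 p := by
        rw [Nat.coprime_primes Nat.prime_three hp]
        exact fun h => hp3 h.symm
      refine slow_combL (hB p 3 (Or.inl rfl) hco _ k2 R L k4 ?_) ASM_vars
      exact hM3 _ (le_trans (le_max_left _ _) k1) R k3
  have hv : ∀ D ∈ FF n, D.length ≤ 8 ∧ ∀ l ∈ D, l.1 < nv (Nat.sqrt (n / 100)) 3 + nv (Nat.sqrt (n / 100)) 4 := by
    intro D hD
    refine ⟨((FF_ok n).2.2 D hD).1, fun l hl => ?_⟩
    rw [hFF] at hD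
    exact combC_vars ASM_vars ASM_vars D hD l hl
  have hfin := hC0 d _ (FF n) L (Nat.sqrt (n / 100) ^ 2) N t hs hv k5
    (le_trans (Nat.mul_le_mul_right _ (Nat.le_succ C0)) k6)
    (lt_of_le_of_lt (Nat.mul_le_mul_right _ (Nat.mul_le_mul_right _ (Nat.mul_le_mul_left _ (Nat.le_succ C0)))) k8) π hπ
  exact k7.trans (by exact_mod_cast hfin.le)

end ACpFrege
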