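import Pool.Agent.H65.AF.AAct

/-!
Row AFAvg: the averaging lemma (rank form of the Razborov-Smolensky random sum).
PROOFS. `three`: `k12 + k13 = dim (K1⊓K2 ⊔ K1⊓K3) + k123 ≤ dim K1 + k123` and `dim K1 + k23 = dim (K1 ⊔ K2⊓K3) + k123 ≤ w + k123`
(`Submodule.finrank_sup_add_finrank_inf_eq`, `Submodule.finrank_mono`).
`avg_sum`: induction on `J`, generalizing `W`. `J = ∅`: both sides `2 * dim (ker of act (H * 0)) = 2 * dim W` (krs W H ∅ b = W).
`J = insert c J'`. For `I ⊆ J'`, `q = Σ_I b`, in `W`: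
 K1 = ker H(1-b_c)q, K2 = ker H b_c q, K3 = ker H b_c (q+1).  kr W (H q) = K1 ⊓ K2 (act (Hq) = act of the sum; conversely multiply by
 `b_c` resp. `1 - b_c`: `act (b_c * (H q)) m = act b_c (act (H q) m)`),  kr W (H (q + b_c)) = K1 ⊓ K3 (as `b_c (q + b_c) = b_c (q+1)`,
 `(1-b_c)(q+b_c) = (1-b_c) q` because `b_c² = b_c`),  K2 ⊓ K3 = kr W (H b_c) =: K0,
 K1 ⊓ K2 ⊓ K3 = kr K0 (H q). `three` gives  k(q) + k(q+b_c) + k0 ≤ w + 2 k_(K0)(q). Sum over the 2^|J'| sets I, use the induction
 hypothesis for `W := K0` (`krs K0 H J' b = krs W H J b`): Σ_J k + 2^|J'| k0 ≤ 2^|J'| w + 2^|J'| (k0 + k_J).  All degrees: `q` has degree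
 ≤ e, so everything is of degree ≤ h + 3e.  `avg_ex`: otherwise the sum of the strict inequalities contradicts `avg_sum`.
-/

set_option autoImplicit false
open Finset

namespace ACpFrege

variable {K : Type} [Field K] {E : Type} [AddCommGroup E] [Module K E] {n : ℕ}

theorem three [FiniteDimensional K E] (W K1 K2 K3 : Submodule K E) (h1 : K1 ≤ W) (h2 : K2 ≤ W) (h3 : K3 ≤ W) :
    Module.finrank K ↥(K1 ⊓ K2) + Module.finrank K ↥(K1 ⊓ K3) + Module.finrank K ↥(K2 ⊓ K3) ≤
      Module.finrank K W + 2 * Module.finrank K ↥(K1 ⊓ K2 ⊓ K3) := by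
  have e1 := Submodule.finrank_sup_add_finrank_inf_eq (K1 ⊓ K2) (K1 ⊓ K3)
  have e2 := Submodule.finrank_sup_add_finrank_inf_eq K1 (K2 ⊓ K3)
  have i1 : (K1 ⊓ K2) ⊓ (K1 ⊓ K3) = K1 ⊓ K2 ⊓ K3 := by
    ext m
    simp only [Submodule.mem_inf]
    tauto
  have i2 : K1 ⊓ (K2 ⊓ K3) = K1 ⊓ K2 ⊓ K3 := by
    rw [inf_assoc]
  rw [i1] at e1
  rw [i2] at e2
  have m1 : Module.finrank K ↥((K1 ⊓ K2) ⊔ (K1 ⊓ K3)) ≤ Module.finrank K K1 :=
    Submodule.finrank_mono (sup_le inf_le_left inf_le_left)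
  have m2 : Module.finrank K ↥(K1 ⊔ (K2 ⊓ K3)) ≤ Module.finrank K W :=
    Submodule.finrank_mono (sup_le h1 (inf_le_left.trans h2))
  omega

private theorem AAvg_kr (s : Slow K E n) (W : Submodule K E) (f : Pt n → K) (m : E) :
    m ∈ s.kr W f ↔ m ∈ W ∧ s.act f m = 0 := by
  unfold Slow.kr
  rw [Submodule.mem_inf, LinearMap.mem_ker]

private theorem AAvg_step [FiniteDimensional K E] (s : Slow K E n) {j h e : ℕ} (W : Submodule K E) (hW : W ≤ s.M j)
    {H q c : Pt n → K} (hc : c ∈ Dg K n e) (hcc : c * c = c) (hq : q ∈ Dg K n e) (hH : H ∈ Dg K n h)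
    (hL : j + h + 3 * e ≤ s.L) :
    Module.finrank K (s.kr W (H * q)) + Module.finrank K (s.kr W (H * (c + q))) + Module.finrank K (s.kr W (H * c)) ≤
      Module.finrank K W + 2 * Module.finrank K (s.kr (s.kr W (H * c)) (H * q)) := by
  have h1c : (1 - c) ∈ Dg K n e := Submodule.sub_mem _ (Dg_one e) hc
  have hq1 : (q + 1) ∈ Dg K n e := Submodule.add_mem _ hq (Dg_one e)
  have hcq : (c + q) ∈ Dg K n e := Submodule.add_mem _ hc hq
  have hk := three W (s.kr W (H * (1 - c) * q)) (s.kr W (H * c * q)) (s.kr W (H * c * (q + 1)))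
    inf_le_left inf_le_left inf_le_left
  have a1 : s.kr W (H * (1 - c) * q) ⊓ s.kr W (H * c * q) = s.kr W (H * q) := by
    ext m
    rw [Submodule.mem_inf, AAvg_kr, AAvg_kr, AAvg_kr]
    constructor
    · rintro ⟨⟨hm, h1⟩, -, h2⟩
      refine ⟨hm, ?_⟩
      have : H * q = H * (1 - c) * q + H * c * q := by ring
      rw [this, act_add, LinearMap.add_apply, h1, h2, add_zero]
    · rintro ⟨hm, h0⟩
      refine ⟨⟨hm, ?_⟩, hm, ?_⟩
      · have : H * (1 - c) * q = (1 - c) * (H * q) := by ring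
        rw [this, ← act_mul s (hW hm) h1c (Dg_mul hH hq) (by omega), h0, map_zero]
      · have : H * c * q = c * (H * q) := by ring
        rw [this, ← act_mul s (hW hm) hc (Dg_mul hH hq) (by omega), h0, map_zero]
  have a2 : s.kr W (H * (1 - c) * q) ⊓ s.kr W (H * c * (q + 1)) = s.kr W (H * (c + q)) := by
    ext m
    rw [Submodule.mem_inf, AAvg_kr, AAvg_kr, AAvg_kr]
    constructor
    · rintro ⟨⟨hm, h1⟩, -, h2⟩
      refine ⟨hm, ?_⟩
      have : H * (c + q) = H * (1 - c) * q + H * c * (q + 1) := by ring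
      rw [this, act_add, LinearMap.add_apply, h1, h2, add_zero]
    · rintro ⟨hm, h0⟩
      refine ⟨⟨hm, ?_⟩, hm, ?_⟩
      · have : H * (1 - c) * q = (1 - c) * (H * (c + q)) := by
          calc H * (1 - c) * q = H * (1 - c) * q + H * (c - c) := by rw [sub_self, mul_zero, add_zero]
            _ = H * (1 - c) * q + H * (c - c * c) := by rw [hcc]
            _ = (1 - c) * (H * (c + q)) := by ring
        rw [this, ← act_mul s (hW hm) h1c (Dg_mul hH hcq) (by omega), h0, map_zero]
      · have : H * c * (q + 1) = c * (H * (c + q)) := by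
          calc H * c * (q + 1) = H * c * q + H * c := by ring
            _ = H * c * q + H * (c * c) := by rw [hcc]
            _ = c * (H * (c + q)) := by ring
        rw [this, ← act_mul s (hW hm) hc (Dg_mul hH hcq) (by omega), h0, map_zero]
  have a3 : s.kr W (H * c * q) ⊓ s.kr W (H * c * (q + 1)) = s.kr W (H * c) := by
    ext m
    rw [Submodule.mem_inf, AAvg_kr, AAvg_kr, AAvg_kr]
    constructor
    · rintro ⟨⟨hm, h1⟩, -, h2⟩
      refine ⟨hm, ?_⟩
      have : H * c = H * c * (q + 1) - H * c * q := by ring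
      rw [this, act_sub, LinearMap.sub_apply, h1, h2, sub_zero]
    · rintro ⟨hm, h0⟩
      refine ⟨⟨hm, ?_⟩, hm, ?_⟩
      · have : H * c * q = q * (H * c) := by ring
        rw [this, ← act_mul s (hW hm) hq (Dg_mul hH hc) (by omega), h0, map_zero]
      · have : H * c * (q + 1) = (q + 1) * (H * c) := by ring
        rw [this, ← act_mul s (hW hm) hq1 (Dg_mul hH hc) (by omega), h0, map_zero]
  have a4 : s.kr W (H * (1 - c) * q) ⊓ s.kr W (H * c * q) ⊓ s.kr W (H * c * (q + 1)) =
      s.kr (s.kr W (H * c)) (H * q) := by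
    rw [inf_assoc, a3]
    ext m
    rw [Submodule.mem_inf, AAvg_kr, AAvg_kr, AAvg_kr]
    constructor
    · rintro ⟨⟨hm, h1⟩, -, h2⟩
      refine ⟨⟨hm, h2⟩, ?_⟩
      have : H * q = H * (1 - c) * q + q * (H * c) := by ring
      rw [this, act_add, LinearMap.add_apply, h1, ← act_mul s (hW hm) hq (Dg_mul hH hc) (by omega), h2, map_zero,
        add_zero]
    · rintro ⟨⟨hm, h2⟩, h0⟩
      refine ⟨⟨hm, ?_⟩, hm, h2⟩
      have : H * (1 - c) * q = (1 - c) * (H * q) := by ring
      rw [this, ← act_mul s (hW hm) h1c (Dg_mul hH hq) (by omega), h0, map_zero]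
  rw [a4, a1, a2, a3] at hk
  exact hk

theorem avg_sum [FiniteDimensional K E] (s : Slow K E n) {j h e : ℕ} (W : Submodule K E) (hW : W ≤ s.M j) (J : Finset ℕ)
    (b : ℕ → Pt n → K) (hb : ∀ i ∈ J, b i ∈ Dg K n e) (h01 : ∀ i ∈ J, Bv (b i)) {H : Pt n → K} (hH : H ∈ Dg K n h)
    (hL : j + h + 3 * e ≤ s.L) :
    2 * ∑ I ∈ J.powerset, Module.finrank K (s.kr W (H * ∑ i ∈ I, b i)) ≤
      2 ^ J.card * (Module.finrank K W + Module.finrank K (s.krs W H J b)) := by
  classical
  induction J using Finset.induction_on generalizing W with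
  | empty =>
      have h0 : s.kr W (H * ∑ i ∈ (∅ : Finset ℕ), b i) = W := by
        ext m
        rw [AAvg_kr, Finset.sum_empty, mul_zero, act_zero]
        simp
      have h1 : s.krs W H ∅ b = W := by
        unfold Slow.krs
        simp
      rw [Finset.powerset_empty, Finset.sum_singleton, h0, h1, Finset.card_empty, pow_zero]
      omega
  | insert c J hc ih =>
      have hbJ : ∀ i ∈ J, b i ∈ Dg K n e := fun i hi => hb i (Finset.mem_insert_of_mem hi)
      have h01J : ∀ i ∈ J, Bv (b i) := fun i hi => h01 i (Finset.mem_insert_of_mem hi)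
      have hcc : b c * b c = b c := by
        funext x
        rw [Pi.mul_apply]
        rcases h01 c (Finset.mem_insert_self _ _) x with h | h <;> rw [h] <;> ring
      have hbc := hb c (Finset.mem_insert_self _ _)
      have ih0 := ih (s.kr W (H * b c)) (inf_le_left.trans hW) hbJ h01J
      have hkrs : s.krs (s.kr W (H * b c)) H J b = s.krs W H (insert c J) b := by
        unfold Slow.krs Slow.kr
        rw [Finset.iInf_insert, inf_assoc]
      rw [hkrs] at ih0
      rw [Finset.sum_powerset_insert hc, ← Finset.sum_add_distrib, Finset.card_insert_of_notMem hc]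
      have hstep : ∀ I ∈ J.powerset, Module.finrank K (s.kr W (H * ∑ i ∈ I, b i)) +
          Module.finrank K (s.kr W (H * ∑ i ∈ insert c I, b i)) + Module.finrank K (s.kr W (H * b c)) ≤
          Module.finrank K W + 2 * Module.finrank K (s.kr (s.kr W (H * b c)) (H * ∑ i ∈ I, b i)) := by
        intro I hI
        rw [Finset.mem_powerset] at hI
        rw [Finset.sum_insert fun h => hc (hI h)]
        exact AAvg_step s W hW hbc hcc (Submodule.sum_mem _ fun i hi => hbJ i (hI hi)) hH hL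
      have hsum : ∑ I ∈ J.powerset, (Module.finrank K (s.kr W (H * ∑ i ∈ I, b i)) +
          Module.finrank K (s.kr W (H * ∑ i ∈ insert c I, b i))) + 2 ^ J.card * Module.finrank K (s.kr W (H * b c)) ≤
          2 ^ J.card * Module.finrank K W +
            2 * ∑ I ∈ J.powerset, Module.finrank K (s.kr (s.kr W (H * b c)) (H * ∑ i ∈ I, b i)) := by
        have h := Finset.sum_le_sum hstep
        simpa only [Finset.sum_add_distrib, Finset.sum_const, Finset.card_powerset, Finset.mul_sum, smul_eq_mul] using h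
      rw [mul_add] at ih0
      rw [pow_succ, mul_add]
      have e1 : 2 ^ J.card * 2 * Module.finrank K W = 2 * (2 ^ J.card * Module.finrank K W) := by ring
      have e2 : 2 ^ J.card * 2 * Module.finrank K (s.krs W H (insert c J) b) =
        2 * (2 ^ J.card * Module.finrank K (s.krs W H (insert c J) b)) := by ring
      rw [e1, e2]
      omega

theorem avg_ex [FiniteDimensional K E] (s : Slow K E n) {j h e : ℕ} (W : Submodule K E) (hW : W ≤ s.M j) (J : Finset ℕ)
    (b : ℕ → Pt n → K) (hb : ∀ i ∈ J, b i ∈ Dg K n e) (h01 : ∀ i ∈ J, Bv (b i)) {H : Pt n → K} (hH : H ∈ Dg K n h)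
    (hL : j + h + 3 * e ≤ s.L) :
    ∃ I ⊆ J, 2 * Module.finrank K (s.kr W (H * ∑ i ∈ I, b i)) ≤ Module.finrank K W + Module.finrank K (s.krs W H J b) := by
  by_contra hcon
  push Not at hcon
  have h1 := avg_sum s W hW J b hb h01 hH hL
  have h2 : ∑ I ∈ J.powerset, (Module.finrank K W + Module.finrank K (s.krs W H J b)) <
      ∑ I ∈ J.powerset, 2 * Module.finrank K (s.kr W (H * ∑ i ∈ I, b i)) :=
    Finset.sum_lt_sum_of_nonempty ⟨∅, Finset.empty_mem_powerset J⟩
      fun I hI => hcon I (Finset.mem_powerset.1 hI)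
  rw [Finset.sum_const, Finset.card_powerset, smul_eq_mul, ← Finset.mul_sum] at h2
  omega

end ACpFrege
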