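import Pool.Agent.H65.AF.Defs

/-!
helper65 (project MP_28250c_AF, exponential lower bounds for AC0[p]-Frege): definitions for Part A.

Part A in words. `Slow` is a filtered module over the cube algebra: subspaces `M 0 ≤ M 1 ≤ .. ≤ M L` of a vector space and
operators `X i` (one for every Boolean variable) with `X i (M j) ≤ M (j+1)` which are idempotent and commute as long as one stays
below level `L`. A function on the cube of degree at most `d` acts from `M j` to `M (j + d)` (`act`), products of functions act as
compositions. `hv` assigns to every formula its approximating 0/1 function on the cube (disjunctions and conjunctions are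
approximated by `t` random-like sums, chosen by `sel` from the rank lemma).
-/

set_option autoImplicit false

namespace ACpFrege

/-- Points of the cube. -/
abbrev Pt (n : ℕ) := Fin n → Bool

/-- The monomial of the set `S`, a function on the cube. -/
def mono (K : Type) [Field K] {n : ℕ} (S : Finset (Fin n)) : Pt n → K := fun x => ∏ i ∈ S, if x i then 1 else 0

/-- Functions of degree at most `d`. -/
def Dg (K : Type) [Field K] (n d : ℕ) : Submodule K (Pt n → K) :=
  Submodule.span K {f | ∃ S : Finset (Fin n), S.card ≤ d ∧ f = mono K S}

/-- The coefficient of the monomial of `S` in `f`. -/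
def cf {K : Type} [Field K] {n : ℕ} (f : Pt n → K) (S : Finset (Fin n)) : K :=
  ∑ T ∈ S.powerset, (-1) ^ (S.card - T.card) * f (fun i => decide (i ∈ T))

/-- A filtered module of length `L`. -/
structure Slow (K : Type) [Field K] (E : Type) [AddCommGroup E] [Module K E] (n : ℕ) where
  X : Fin n → E →ₗ[K] E
  M : ℕ → Submodule K E
  L : ℕ
  up : ∀ j, j < L → M j ≤ M (j + 1)
  map : ∀ i j, j < L → ∀ m ∈ M j, X i m ∈ M (j + 1)
  idem : ∀ i j, j + 2 ≤ L → ∀ m ∈ M j, X i (X i m) = X i m
  comm : ∀ i i' j, j + 2 ≤ L → ∀ m ∈ M j, X i (X i' m) = X i' (X i m)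

variable {K : Type} [Field K] {E : Type} [AddCommGroup E] [Module K E] {n : ℕ}

/-- The product of the operators `X i`, `i ∈ S`, in increasing order. -/
noncomputable def Slow.XS (s : Slow K E n) (S : Finset (Fin n)) : E →ₗ[K] E := ((S.sort (· ≤ ·)).map s.X).prod

/-- The action of a function on the cube. -/
noncomputable def Slow.act (s : Slow K E n) (f : Pt n → K) : E →ₗ[K] E := ∑ S : Finset (Fin n), cf f S • s.XS S

/-- The kernel of the action of `f` in a subspace. -/
noncomputable def Slow.kr (s : Slow K E n) (W : Submodule K E) (f : Pt n → K) : Submodule K E := W ⊓ LinearMap.ker (s.act f)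

/-- The common kernel in `W` of the functions `H * b i`, `i ∈ J`. -/
noncomputable def Slow.krs (s : Slow K E n) (W : Submodule K E) (H : Pt n → K) (J : Finset ℕ) (b : ℕ → Pt n → K) :
    Submodule K E := W ⊓ ⨅ i ∈ J, LinearMap.ker (s.act (H * b i))

/-- 0/1-valued functions. -/
def Bv (f : Pt n → K) : Prop := ∀ x, f x = 0 ∨ f x = 1

/-- The product of `1 - q^(p-1)` for the `t` sums `q` of the members of the family `b` with indices in `I s`. -/
def hprod (p t : ℕ) (I : ℕ → Finset ℕ) (b : ℕ → Pt n → K) : Pt n → K :=
  ∏ s ∈ Finset.range t, (1 - (∑ i ∈ I s, b i) ^ (p - 1))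

/-- The family of functions of a list, negated for `k = false` (conjunctions); zero beyond the list. -/
def fam (k : Bool) (l : List (Pt n → K)) (i : ℕ) : Pt n → K :=
  if h : i < l.length then (if k then l[i] else 1 - l[i]) else 0

/-- The property required of the choice `I` for the family `b` of the members with index below `r`: few vectors of `M 0` are
lost. -/
def Slow.Good (s : Slow K E n) (p t e : ℕ) (r : ℕ) (b : ℕ → Pt n → K) (I : ℕ → Finset ℕ) : Prop :=
  (∀ j, I j ⊆ Finset.range r) ∧
    3 ^ t * Module.finrank K (s.M 0) ≤
      3 ^ t * Module.finrank K (s.krs (s.M 0) (hprod p t I b) (Finset.range r) b) + 2 ^ t * Module.finrank K (s.M (t * e))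

open Classical in
/-- A good choice for a list, if there is one. -/
noncomputable def Slow.sel (s : Slow K E n) (p t e : ℕ) (k : Bool) (l : List (Pt n → K)) : ℕ → Finset ℕ :=
  if h : ∃ I, s.Good p t e l.length (fam k l) I then h.choose else fun _ => ∅

/-- The approximating function of the disjunction (`k = true`) or conjunction (`k = false`) of a list of functions. -/
noncomputable def Slow.gv (s : Slow K E n) (p t e : ℕ) (k : Bool) (l : List (Pt n → K)) : Pt n → K :=
  if k then 1 - hprod p t (s.sel p t e k l) (fam k l) else hprod p t (s.sel p t e k l) (fam k l)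

/-- The approximating function of a formula, and the list of the functions of its members when it is seen as a disjunction
(`true`) or as a conjunction (`false`): nested disjunctions (conjunctions) are flattened. Variables with index `≥ n` are 0. -/
noncomputable def Slow.hv (s : Slow K E n) {p : ℕ} (t e : ℕ) : Fm p → (Pt n → K) × (Bool → List (Pt n → K))
  | .var x => (fun a => if h : x < n then (if a ⟨x, h⟩ then 1 else 0) else 0,
      fun _ => [fun a => if h : x < n then (if a ⟨x, h⟩ then 1 else 0) else 0])
  | .neg A => (1 - (s.hv t e A).1, fun _ => [1 - (s.hv t e A).1])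
  | .cn k _ A =>
      (s.gv p t e k (List.ofFn fun i => (s.hv t e (A i)).2 k).flatten,
        fun k' => if k' = k then (List.ofFn fun i => (s.hv t e (A i)).2 k).flatten
          else [s.gv p t e k (List.ofFn fun i => (s.hv t e (A i)).2 k).flatten])
  | .md r _ A => (fun a => 1 - (∑ i, (s.hv t e (A i)).1 a - ((r.val : ℕ) : K)) ^ (p - 1),
      fun _ => [fun a => 1 - (∑ i, (s.hv t e (A i)).1 a - ((r.val : ℕ) : K)) ^ (p - 1)])

/-- The approximating function. -/
noncomputable def Slow.h (s : Slow K E n) {p : ℕ} (t e : ℕ) (A : Fm p) : Pt n → K := (s.hv t e A).1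

/-- The members of a formula seen as a disjunction (conjunction). -/
noncomputable def Slow.hl (s : Slow K E n) {p : ℕ} (t e : ℕ) (k : Bool) (A : Fm p) : List (Pt n → K) := (s.hv t e A).2 k

/-- `f` is killed by the function `P`. -/
def Slow.Z (s : Slow K E n) (f : E) (P : Pt n → K) : Prop := s.act P f = 0

/-- The vector `f` respects the gate `A` (a disjunction or conjunction): it is killed by (1 - value) * member for a disjunction and
by value * (1 - member) for a conjunction. -/
def Slow.Resp (s : Slow K E n) {p : ℕ} (t e : ℕ) (f : E) : Fm p → Prop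
  | .cn k _ A => ∀ g ∈ (List.ofFn fun i => s.hl t e k (A i)).flatten,
      if k then s.Z f ((1 - s.gv p t e k (List.ofFn fun i => s.hl t e k (A i)).flatten) * g)
      else s.Z f (s.gv p t e k (List.ofFn fun i => s.hl t e k (A i)).flatten * (1 - g))
  | _ => True

/-- The operator `1 - literal`. -/
noncomputable def Slow.lit (s : Slow K E n) (l : Lit) (m : E) : E :=
  if h : l.1 < n then (if l.2 then m - s.X ⟨l.1, h⟩ m else s.X ⟨l.1, h⟩ m) else (if l.2 then m else 0)

/-- The CNF `F` (variables with index below `n`) has a slow module of length `L` and growth factor `A` over a field of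
characteristic `p`. -/
def HasSlow (p n : ℕ) (F : CNF) (L A : ℕ) : Prop :=
  ∃ (K : Type) (_ : Field K) (_ : CharP K p) (E : Type) (_ : AddCommGroup E) (_ : Module K E) (_ : FiniteDimensional K E)
    (s : Slow K E n), s.L = L ∧ 0 < Module.finrank K (s.M 0) ∧
      Module.finrank K (s.M L) ≤ A * Module.finrank K (s.M 0) ∧
      ∀ C ∈ F, ∀ j, j + C.length ≤ L → ∀ m ∈ s.M j, C.foldr s.lit m = 0

end ACpFrege
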