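import Mathlib

/-!
helper65: formulas with MOD_p connectives, Frege systems (finite sets of sound schematic rules) and CNFs.
-/

set_option autoImplicit false

namespace ACpFrege

/-- Formulas with variables `x_0, x_1, ...`, negation, disjunctions (`cn true`) and conjunctions (`cn false`) of any number
of formulas (none: the constants false and true), and the connectives `MOD_(p,r)`, `r` in `Z/p`. -/
inductive Fm (p : ℕ) : Type
  | var (x : ℕ) : Fm p
  | neg (A : Fm p) : Fm p
  | cn (k : Bool) (n : ℕ) (A : Fin n → Fm p) : Fm p
  | md (r : ZMod p) (n : ℕ) (A : Fin n → Fm p) : Fm p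

/-- The size of a formula: its number of symbols (variables and connectives). -/
def Fm.size {p : ℕ} : Fm p → ℕ
  | .var _ => 1
  | .neg A => A.size + 1
  | .cn _ _ A => 1 + ∑ i, (A i).size
  | .md _ _ A => 1 + ∑ i, (A i).size

/-- The largest number of connectives on a path of the formula, where neighbouring connectives of the same kind (negations,
disjunctions, conjunctions) are merged; `c` tells which connective is just above (1: negation, 2: disjunction,
3: conjunction, 0: none of these). -/
def Fm.dep {p : ℕ} : Fm p → ℕ → ℕ
  | .var _, _ => 0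
  | .neg A, c => (if c = 1 then 0 else 1) + A.dep 1
  | .cn k _ A, c => (if c = (if k then 2 else 3) then 0 else 1) + Finset.univ.sup fun i => (A i).dep (if k then 2 else 3)
  | .md _ _ A, _ => 1 + Finset.univ.sup fun i => (A i).dep 0

/-- The depth of a formula. -/
def Fm.depth {p : ℕ} (A : Fm p) : ℕ := A.dep 0

/-- The disjunction or conjunction of a list of formulas. -/
def cnL {p : ℕ} (k : Bool) (l : List (Fm p)) : Fm p := .cn k l.length l.get

/-- `MOD_(p,r)` of a list of formulas. -/
def mdL {p : ℕ} (r : ZMod p) (l : List (Fm p)) : Fm p := .md r l.length l.get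

/-- Formula schemes: metavariables `mv i` for formulas and `sq j` for finite sequences of formulas. -/
inductive Sch (p : ℕ) : Type
  | mv (i : ℕ) : Sch p
  | sq (j : ℕ) : Sch p
  | neg (S : Sch p) : Sch p
  | cn (k : Bool) (n : ℕ) (S : Fin n → Sch p) : Sch p
  | md (r : ZMod p) (n : ℕ) (S : Fin n → Sch p) : Sch p

/-- The instance of a scheme, a sequence of formulas (one formula for a scheme other than a negated or plain sequence
variable): `mv i` is replaced by `s i`, `sq j` by the sequence `G j`; the negation of a sequence is taken memberwise; the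
arguments of a connective are concatenated. -/
def Sch.inst {p : ℕ} (s : ℕ → Fm p) (G : ℕ → List (Fm p)) : Sch p → List (Fm p)
  | .mv i => [s i]
  | .sq j => G j
  | .neg S => (S.inst s G).map Fm.neg
  | .cn k _ S => [cnL k (List.ofFn fun i => (S i).inst s G).flatten]
  | .md r _ S => [mdL r (List.ofFn fun i => (S i).inst s G).flatten]

/-- The truth values of a scheme when `mv i` has the value `v i` and `sq j` is a sequence with values `w j`. -/
def Sch.ev {p : ℕ} (v : ℕ → Bool) (w : ℕ → List Bool) : Sch p → List Bool
  | .mv i => [v i]
  | .sq j => w j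
  | .neg S => (S.ev v w).map not
  | .cn true _ S => [(List.ofFn fun i => (S i).ev v w).flatten.any id]
  | .cn false _ S => [(List.ofFn fun i => (S i).ev v w).flatten.all id]
  | .md r _ S => [decide ((((List.ofFn fun i => (S i).ev v w).flatten.count true : ℕ) : ZMod p) = r)]

/-- A schematic rule: from the premises infer the conclusion. -/
structure Rule (p : ℕ) where
  prem : List (Sch p)
  concl : Sch p

/-- The rule is sound: for all truth values of the formula variables and of the sequences, of any lengths, if all premises
are true then the conclusion is true. -/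
def Rule.Sound {p : ℕ} (R : Rule p) : Prop :=
  ∀ (v : ℕ → Bool) (w : ℕ → List Bool), (∀ P ∈ R.prem, ∀ b ∈ P.ev v w, b = true) → ∀ b ∈ R.concl.ev v w, b = true

/-- A literal: a variable and the value which makes the literal true. -/
abbrev Lit := ℕ × Bool

/-- A CNF: a list of clauses; a clause is a list of literals. -/
abbrev CNF := List (List Lit)

/-- The CNF is unsatisfiable. -/
def CNF.Unsat (F : CNF) : Prop := ∀ a : ℕ → Bool, ∃ C ∈ F, ∀ l ∈ C, a l.1 ≠ l.2

/-- The formula of a clause. -/
def clauseFm {p : ℕ} (C : List Lit) : Fm p := cnL true (C.map fun l => if l.2 then .var l.1 else .neg (.var l.1))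

/-- The formula `A` is a clause of the CNF `F` or the conclusion of an instance of a rule of the system `S` all of whose
premises are in `prev`. -/
def Step {p : ℕ} (S : List (Rule p)) (F : CNF) (prev : List (Fm p)) (A : Fm p) : Prop :=
  (∃ C ∈ F, A = clauseFm C) ∨
  ∃ R ∈ S, ∃ (s : ℕ → Fm p) (G : ℕ → List (Fm p)), R.concl.inst s G = [A] ∧ ∀ P ∈ R.prem, ∀ B ∈ P.inst s G, B ∈ prev

/-- `π` is a refutation of the CNF `F` in the Frege system `S` all of whose lines have depth at most `d`. -/
def Refutes {p : ℕ} (S : List (Rule p)) (d : ℕ) (F : CNF) (π : List (Fm p)) : Prop :=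
  (∀ A ∈ π, A.depth ≤ d) ∧ (∀ (i : ℕ) (h : i < π.length), Step S F (π.take i) π[i]) ∧ cnL true [] ∈ π

/-- The size of a proof: the sum of the sizes of its lines. -/
def psize {p : ℕ} (π : List (Fm p)) : ℕ := (π.map Fm.size).sum

/-- The size of a CNF: the number of its clauses and of the literals in them. -/
def CNF.size (F : CNF) : ℕ := (F.map fun C => 1 + C.length).sum

end ACpFrege
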