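import Pool.Agent.H65.AF.PDefs

/-!
helper65 (project MP_28250c_AF): interfaces of the three parts for the final assembly.
-/

set_option autoImplicit false

namespace ACpFrege

/-- Output of Part A (helper98, helper85). -/
def OutA (p : ℕ) : Prop :=
  ∀ S : List (Rule p), (∀ R ∈ S, R.Sound) → ∀ d : ℕ, ∃ C : ℕ, ∀ (n : ℕ) (F : CNF) (L A N t : ℕ), HasSlow p n F L A →
    (∀ D ∈ F, D.length ≤ 4 ∧ ∀ l ∈ D, l.1 < n) → 1 ≤ t → C * (p * t) ^ (d + 2) ≤ L → N * C * A * 2 ^ t < 3 ^ t →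
    ∀ π : List (Fm p), Refutes S d F π → N < psize π

open Classical in
/-- Output of Part B (helper56, helper34): `nv M` variables, the CNF `AS M`. -/
def OutB (p q : ℕ) [NeZero q] (nv : ℕ → ℕ) (AS : ℕ → CNF) : Prop :=
  (∀ M, 2 ≤ M → (AS M).Unsat ∧ (AS M).size ≤ (M + 2) ^ 20 ∧ nv M ≤ 100 * M ^ 2 ∧
    ∀ D ∈ AS M, D.length ≤ 4 ∧ ∀ l ∈ D, l.1 < nv M) ∧
  ∀ M L : ℕ, 2 ≤ M → 8 ≤ L → ∀ (w : Matrix (Fin M) (Fin M) ℂ) (f : Fin M → ℝ), w.IsHermitian → (∀ u, f u = 1 ∨ f u = -1) →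
    Fintype.card (Fin M → Fin M → ZMod q) ≤
      M ^ 2 * (Finset.univ.filter fun c : Fin M → Fin M → ZMod q => AllNice L f w (anti c)).card →
    HasSlow p (nv M) (AS M) L (M ^ 2)

end ACpFrege
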