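import Pool.Agent.H65.AF.Defs

/-!
helper65: two earlier forms of the final statement (not used by the hand-in).
-/

set_option autoImplicit false

namespace ACpFrege

/-- The statement: exponential lower bounds for bounded-depth Frege systems with MOD_p connectives: there are unsatisfiable CNFs
`F n` in (at most) `n` variables, of polynomial size, with at most four literals in every clause, such that for every finite set
`S` of sound schematic rules and every depth `d` all refutations of `F n` of depth `d` have size at least `2^(n^ε)`. -/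
def Statement (p : ℕ) : Prop :=
  ∃ (F : ℕ → CNF) (c : ℕ), (∀ n, (F n).Unsat ∧ (F n).size ≤ (n + 2) ^ c ∧ ∀ C ∈ F n, C.length ≤ 4 ∧ ∀ l ∈ C, l.1 < n) ∧
    ∀ S : List (Rule p), (∀ R ∈ S, R.Sound) → ∀ d : ℕ, ∃ ε : ℝ, 0 < ε ∧ ∃ n₀ : ℕ, ∀ n ≥ n₀,
      ∀ π : List (Fm p), Refutes S d (F n) π → (2 : ℝ) ^ ((n : ℝ) ^ ε) ≤ psize π

/-- The statement with one family of CNFs for all primes `p`. -/
def StatementAll : Prop :=
  ∃ (F : ℕ → CNF) (c : ℕ), (∀ n, (F n).Unsat ∧ (F n).size ≤ (n + 2) ^ c ∧ ∀ C ∈ F n, C.length ≤ 8 ∧ ∀ l ∈ C, l.1 < n) ∧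
    ∀ p : ℕ, p.Prime → ∀ S : List (Rule p), (∀ R ∈ S, R.Sound) → ∀ d : ℕ, ∃ ε : ℝ, 0 < ε ∧ ∃ n₀ : ℕ, ∀ n ≥ n₀,
      ∀ π : List (Fm p), Refutes S d (F n) π → (2 : ℝ) ^ ((n : ℝ) ^ ε) ≤ psize π

end ACpFrege
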