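import Pool.Agent.H65.AF.FDefs
import Pool.Agent.H65.AF.StOld

/-!
Row AFFin: final assembly (numerics).
PROOF. Let `M n := Nat.sqrt (n / 100)` (so `100 * (M n)^2 ≤ n`), `F n := if 2 ≤ M n then AS (M n) else [[]]` (the CNF `[[]]` with the
empty clause is unsatisfiable, has size 1, no variables). c := 20 or more: (M n + 2)^20 ≤ (n+2)^20.
Given S, d: C from OutA (may assume C ≥ 1: replace C by C + 1; both hypotheses get stronger). ε := 1/(4000 (d+2)). Put for large n: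
M = M n ≥ (1/20) sqrt n, M ≥ M₀, L := the largest integer with L^400 ≤ M (Nat.nthRoot or `Nat.findGreatest`), L ≥ M^(1/400) - 1 ≥ n^(1/900)
for large n, L ≥ 8; N := ⌈2^(n^ε)⌉₊; t := ⌈4 (n^ε + C + 2 log n)⌉₊ or just t := ⌈n^(2ε)⌉₊: for large n
  N C A 2^t < 3^t: ln N + ln C + 2 ln M ≤ t ln (3/2) as (3/2)^t ≥ e^(0.4 t), n^(2ε) dominates n^ε + ln C + 2 ln n + 1;
  C (p t)^(d+2) ≤ L: C (p (n^(2ε)+1))^(d+2) ≤ C (2p)^(d+2) n^(2ε(d+2)) = C (2p)^(d+2) n^(1/2000) ≤ n^(1/900) - 1 for large n.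
HasSlow from PartC q (`w`, `f` for M, L) and OutB. Then N < psize π, so 2^(n^ε) ≤ N ≤ psize π. Eventually-filter arguments
(`Filter.Tendsto`, `Filter.eventually_atTop`), `isLittleO_log_rpow_atTop`, `tendsto_rpow_atTop` etc. are convenient.
-/

set_option autoImplicit false

namespace ACpFrege

private theorem ev_rpow {a : ℝ} (ha : 0 < a) (B : ℝ) : ∃ n0 : ℕ, ∀ n ≥ n0, B ≤ (n : ℝ) ^ a := by
  have h := ((tendsto_rpow_atTop ha).comp tendsto_natCast_atTop_atTop).eventually_ge_atTop B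
  obtain ⟨n0, h0⟩ := Filter.eventually_atTop.mp h
  exact ⟨n0, fun n hn => h0 n hn⟩

/-- growth: the exponential inequality -/
private theorem expo {C : ℕ} (hC : 1 ≤ C) {x y : ℝ} (hx : 1 ≤ x) {ε : ℝ} (he : 0 < ε) (hy : y = x ^ ε) (hy1 : 1 ≤ y)
    (hY : Real.log (2 * C) + 2 / ε + Real.log 2 < y * Real.log (3 / 2)) {N M t : ℕ} (hN : (N : ℝ) ≤ 2 ^ y + 1)
    (hM : (M : ℝ) ≤ x) (ht : y ^ 2 ≤ t) : N * C * M ^ 2 * 2 ^ t < 3 ^ t := by
  have hC' : (1 : ℝ) ≤ C := by exact_mod_cast hC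
  have hx0 : 0 < x := by linarith
  have hlogx : Real.log x = Real.log y / ε := by
    rw [hy, Real.log_rpow hx0]; field_simp
  have hl32 : 0 < Real.log (3 / 2) := Real.log_pos (by norm_num)
  have hlC : 0 ≤ Real.log (2 * C) := Real.log_nonneg (by linarith)
  have hly : Real.log y ≤ y := by
    have := Real.log_le_sub_one_of_pos (show 0 < y by linarith)
    linarith
  -- the key real inequality
  have hkey : 2 * (C : ℝ) * x ^ 2 * 2 ^ y < (3 / 2) ^ t := by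
    have hpos : 0 < 2 * (C : ℝ) * x ^ 2 * 2 ^ y := by positivity
    rw [← Real.log_lt_log_iff hpos (by positivity)]
    rw [Real.log_mul (by positivity) (by positivity), Real.log_mul (by positivity) (by positivity), Real.log_pow,
      Real.log_rpow (by norm_num), Real.log_pow, hlogx]
    have h1 : y ^ 2 * Real.log (3 / 2) ≤ t * Real.log (3 / 2) := mul_le_mul_of_nonneg_right ht hl32.le
    have h2 : y * (Real.log (2 * C) + 2 / ε + Real.log 2) < y * (y * Real.log (3 / 2)) :=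
      mul_lt_mul_of_pos_left hY (by linarith)
    have h3 : Real.log (2 * C) ≤ y * Real.log (2 * C) := by nlinarith
    have h4 : ((2 : ℕ) : ℝ) * (Real.log y / ε) ≤ y * (2 / ε) := by
      have : Real.log y / ε ≤ y / ε := div_le_div_of_nonneg_right hly he.le
      push_cast
      calc 2 * (Real.log y / ε) ≤ 2 * (y / ε) := by linarith
        _ = y * (2 / ε) := by ring
    nlinarith
  have h2y : (1 : ℝ) ≤ 2 ^ y := Real.one_le_rpow (by norm_num) (by linarith)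
  have hM2 : (M : ℝ) ^ 2 ≤ x ^ 2 := pow_le_pow_left₀ (Nat.cast_nonneg _) hM 2
  have hN2 : (N : ℝ) ≤ 2 * 2 ^ y := by linarith
  have h5 : (N : ℝ) * C * M ^ 2 ≤ 2 * (C : ℝ) * x ^ 2 * 2 ^ y := by
    calc (N : ℝ) * C * M ^ 2 ≤ (2 * 2 ^ y) * C * x ^ 2 := by gcongr
      _ = _ := by ring
  have h6 : (N : ℝ) * C * M ^ 2 * 2 ^ t < 3 ^ t := by
    calc (N : ℝ) * C * M ^ 2 * 2 ^ t < (3 / 2) ^ t * 2 ^ t :=
          mul_lt_mul_of_pos_right (h5.trans_lt hkey) (by positivity)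
      _ = 3 ^ t := by rw [← mul_pow]; norm_num
  exact_mod_cast h6

/-- growth: the length -/
private theorem lens {d p C : ℕ} {x y : ℝ} (hx : 1 ≤ x) (hy : y = x ^ ((1 : ℝ) / (4000 * (d + 2)))) (hy1 : 1 ≤ y)
    (hK : 2 * ((C : ℝ) * (2 * p) ^ (d + 2) + 1) ≤ x ^ ((3 : ℝ) / 4000)) {t L : ℕ} (ht : (t : ℝ) ≤ y ^ 2 + 1)
    (hL : x ^ ((1 : ℝ) / 800) / 2 - 1 ≤ L) : C * (p * t) ^ (d + 2) ≤ L := by
  have hx0 : 0 < x := by linarith
  have ht2 : (t : ℝ) ≤ 2 * y ^ 2 := by nlinarith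
  have hypow : (y ^ 2) ^ (d + 2) = x ^ ((1 : ℝ) / 2000) := by
    rw [hy, ← pow_mul, ← Real.rpow_natCast, ← Real.rpow_mul hx0.le]
    congr 1
    push_cast
    have : ((d : ℝ) + 2) ≠ 0 := by positivity
    field_simp
    norm_num
  have h1 : (C : ℝ) * (p * t) ^ (d + 2) ≤ C * (2 * p) ^ (d + 2) * x ^ ((1 : ℝ) / 2000) := by
    rw [← hypow]
    calc (C : ℝ) * (p * t) ^ (d + 2) ≤ C * (p * (2 * y ^ 2)) ^ (d + 2) := by gcongr
      _ = C * (2 * p) ^ (d + 2) * (y ^ 2) ^ (d + 2) := by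
        rw [show (p : ℝ) * (2 * y ^ 2) = (2 * p) * y ^ 2 by ring, mul_pow]; ring
  have h2 : x ^ ((1 : ℝ) / 800) = x ^ ((1 : ℝ) / 2000) * x ^ ((3 : ℝ) / 4000) := by
    rw [← Real.rpow_add hx0]; norm_num
  have h3 : 1 ≤ x ^ ((1 : ℝ) / 2000) := Real.one_le_rpow hx (by norm_num)
  have h4 : (C : ℝ) * (2 * p) ^ (d + 2) * x ^ ((1 : ℝ) / 2000) ≤ x ^ ((1 : ℝ) / 800) / 2 - 1 := by
    rw [h2]
    nlinarith
  have h5 : (C : ℝ) * (p * t) ^ (d + 2) ≤ L := h1.trans (h4.trans hL)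
  exact_mod_cast h5

private theorem Mbound (n : ℕ) : Real.sqrt n / 10 - 1 ≤ (Nat.sqrt (n / 100) : ℝ) := by
  have h1 : n / 100 < (Nat.sqrt (n / 100) + 1) * (Nat.sqrt (n / 100) + 1) := Nat.lt_succ_sqrt _
  have h2 : n < 100 * ((Nat.sqrt (n / 100) + 1) * (Nat.sqrt (n / 100) + 1)) := by omega
  have h3 : (n : ℝ) ≤ (10 * ((Nat.sqrt (n / 100) : ℝ) + 1)) ^ 2 := by
    have : (n : ℝ) < ((100 * ((Nat.sqrt (n / 100) + 1) * (Nat.sqrt (n / 100) + 1)) : ℕ) : ℝ) := by exact_mod_cast h2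
    push_cast at this
    nlinarith
  have h4 : Real.sqrt n ≤ 10 * ((Nat.sqrt (n / 100) : ℝ) + 1) := by
    rw [← Real.sqrt_sq (show (0 : ℝ) ≤ 10 * ((Nat.sqrt (n / 100) : ℝ) + 1) by positivity)]
    exact Real.sqrt_le_sqrt h3
  linarith

theorem assemble (p q : ℕ) [Fact p.Prime] [NeZero q] (nv : ℕ → ℕ) (AS : ℕ → CNF) (hA : OutA p) (hB : OutB p q nv AS)
    (hC : PartC q) : Statement p := by
  obtain ⟨hB1, hB2⟩ := hB
  refine ⟨fun n => if 2 ≤ Nat.sqrt (n / 100) then AS (Nat.sqrt (n / 100)) else [[]], 20, ?_, ?_⟩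
  · intro n
    by_cases h2 : 2 ≤ Nat.sqrt (n / 100)
    · simp only [h2, if_true]
      obtain ⟨u1, u2, u3, u4⟩ := hB1 _ h2
      have hs : Nat.sqrt (n / 100) * Nat.sqrt (n / 100) ≤ n / 100 := Nat.sqrt_le _
      have hMn : Nat.sqrt (n / 100) ≤ n := by nlinarith [Nat.div_le_self n 100]
      refine ⟨u1, u2.trans (Nat.pow_le_pow_left (by omega) 20), ?_⟩
      intro D hD l hl
      have h5 := (u4 D hD).2 l hl
      have h6 : 100 * Nat.sqrt (n / 100) ^ 2 ≤ n := by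
        rw [pow_two]; omega
      omega
    · simp only [h2, if_false]
      refine ⟨?_, ?_, ?_⟩
      · intro a
        exact ⟨[], by simp, by simp⟩
      · simp only [CNF.size, List.map_cons, List.map_nil, List.length_nil, List.sum_cons, List.sum_nil]
        exact Nat.one_le_pow _ _ (by omega)
      · intro D hD l hl
        simp only [List.mem_singleton] at hD
        subst hD
        simp at hl
  · intro S hS d
    obtain ⟨C0, hC0⟩ := hA S hS d
    obtain ⟨M₀, hM₀⟩ := hC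
    set C : ℕ := C0 + 1 with hCdef
    have hCC : C0 ≤ C := by omega
    have hC1 : 1 ≤ C := by omega
    set ε : ℝ := (1 : ℝ) / (4000 * (d + 2)) with hε
    have hε0 : 0 < ε := by positivity
    have hl32 : 0 < Real.log (3 / 2) := Real.log_pos (by norm_num)
    obtain ⟨n1, hn1⟩ := ev_rpow hε0 (max 1 ((Real.log (2 * C) + 2 / ε + Real.log 2 + 1) / Real.log (3 / 2)))
    obtain ⟨n2, hn2⟩ := ev_rpow (show (0 : ℝ) < 3 / 4000 by norm_num) (2 * ((C : ℝ) * (2 * p) ^ (d + 2) + 1))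
    obtain ⟨n3, hn3⟩ := ev_rpow (show (0 : ℝ) < 1 / 800 by norm_num) 18
    obtain ⟨n4, hn4⟩ := ev_rpow (show (0 : ℝ) < 1 / 2 by norm_num) (20 * (M₀ + 2))
    refine ⟨ε, hε0, max (max (max n1 n2) (max n3 n4)) 1, ?_⟩
    intro n hn π hπ
    have g1 := hn1 n (by omega)
    have g2 := hn2 n (by omega)
    have g3 := hn3 n (by omega)
    have g4 := hn4 n (by omega)
    have hn0 : 1 ≤ n := by omega
    have hx1 : (1 : ℝ) ≤ n := by exact_mod_cast hn0
    set x : ℝ := (n : ℝ) with hx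
    set y : ℝ := x ^ ε with hy
    have hy1 : 1 ≤ y := (le_max_left _ _).trans g1
    have hY : Real.log (2 * C) + 2 / ε + Real.log 2 < y * Real.log (3 / 2) := by
      have := (le_max_right _ _).trans g1
      rw [div_le_iff₀ hl32] at this
      linarith
    set M : ℕ := Nat.sqrt (n / 100) with hM
    have hsq : x ^ ((1 : ℝ) / 2) = Real.sqrt x := (Real.sqrt_eq_rpow x).symm
    rw [hsq] at g4
    have hMb := Mbound n
    have hMM : Real.sqrt x / 20 ≤ (M : ℝ) := by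
      have h7 : (0 : ℝ) ≤ M₀ := Nat.cast_nonneg _
      have : Real.sqrt x / 10 - 1 ≤ (M : ℝ) := hMb
      linarith
    have hM2 : (M₀ : ℝ) + 2 ≤ M := by
      refine le_trans ?_ hMM
      linarith
    have hM2' : M₀ + 2 ≤ M := by exact_mod_cast hM2
    have hMx : (M : ℝ) ≤ x := by
      have hs : M * M ≤ n / 100 := Nat.sqrt_le _
      have : M ≤ n := by nlinarith [Nat.div_le_self n 100]
      rw [hx]
      exact_mod_cast this
    -- L
    set L : ℕ := ⌊(M : ℝ) ^ ((1 : ℝ) / 400)⌋₊ with hL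
    have hMr0 : (0 : ℝ) ≤ M := Nat.cast_nonneg _
    have hLM : L ^ 400 ≤ M := by
      have h8 : (L : ℝ) ≤ (M : ℝ) ^ ((1 : ℝ) / 400) := Nat.floor_le (Real.rpow_nonneg hMr0 _)
      have h9 : (L : ℝ) ^ 400 ≤ M := by
        calc (L : ℝ) ^ 400 ≤ ((M : ℝ) ^ ((1 : ℝ) / 400)) ^ 400 := pow_le_pow_left₀ (Nat.cast_nonneg _) h8 400
          _ = M := by
            rw [← Real.rpow_natCast, ← Real.rpow_mul hMr0]
            norm_num
      exact_mod_cast h9
    have hLx : x ^ ((1 : ℝ) / 800) / 2 - 1 ≤ L := by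
      have h8 : (M : ℝ) ^ ((1 : ℝ) / 400) < L + 1 := Nat.lt_floor_add_one _
      have h9 : x ^ ((1 : ℝ) / 800) / 2 ≤ (M : ℝ) ^ ((1 : ℝ) / 400) := by
        have hx0 : 0 ≤ x := by linarith
        have h10 : (x ^ ((1 : ℝ) / 800) / 2) = ((x ^ ((1 : ℝ) / 800) / 2) ^ 400) ^ ((1 : ℝ) / 400) := by
          rw [← Real.rpow_natCast, ← Real.rpow_mul (by positivity)]
          norm_num
        rw [h10]
        refine Real.rpow_le_rpow (by positivity) ?_ (by norm_num)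
        refine le_trans ?_ hMM
        rw [div_pow, ← Real.rpow_natCast, ← Real.rpow_mul hx0, show (1 : ℝ) / 800 * ((400 : ℕ) : ℝ) = 1 / 2 by norm_num, hsq]
        have h11 : (20 : ℝ) ≤ 2 ^ 400 :=
          le_trans (by norm_num : (20 : ℝ) ≤ 2 ^ 5) (pow_le_pow_right₀ (by norm_num) (by norm_num))
        exact div_le_div_of_nonneg_left (Real.sqrt_nonneg _) (by norm_num) h11
      linarith
    have hL8 : 8 ≤ L := by
      have : (8 : ℝ) ≤ L := by linarith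
      exact_mod_cast this
    -- t
    set t : ℕ := ⌈y ^ 2⌉₊ with ht
    have ht1 : (t : ℝ) ≤ y ^ 2 + 1 := (Nat.ceil_lt_add_one (by positivity)).le
    have ht2 : y ^ 2 ≤ t := Nat.le_ceil _
    have ht3 : 1 ≤ t := by
      have : (1 : ℝ) ≤ t := by nlinarith
      exact_mod_cast this
    have hlen : C * (p * t) ^ (d + 2) ≤ L := lens hx1 (by rw [hy, hε]) hy1 g2 ht1 hLx
    set N : ℕ := ⌈(2 : ℝ) ^ y⌉₊ with hN
    have hN1 : (N : ℝ) ≤ 2 ^ y + 1 := (Nat.ceil_lt_add_one (by positivity)).le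
    have hexp : N * C * M ^ 2 * 2 ^ t < 3 ^ t := expo hC1 hx1 hε0 hy hy1 hY hN1 hMx ht2
    -- slow module
    obtain ⟨w, f, hw, hf, hcard⟩ := hM₀ M (by omega) L hLM
    have hM22 : 2 ≤ M := by omega
    have hslow := hB2 M L hM22 hL8 w f hw hf hcard
    simp only [← hM, if_pos hM22] at hπ
    have hfin := hC0 (nv M) (AS M) L (M ^ 2) N t hslow (hB1 M hM22).2.2.2 ht3
      (le_trans (Nat.mul_le_mul_right _ hCC) hlen)
      (lt_of_le_of_lt (by gcongr) hexp) π hπ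
    calc (2 : ℝ) ^ y ≤ N := Nat.le_ceil _
      _ ≤ psize π := by exact_mod_cast hfin.le

end ACpFrege
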