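import Pool.Agent.H65.AF.Defs

/-!
helper65 (MP_28250c_AF): the final statement, with an explicit exponent, uniform in the depth.
-/

set_option autoImplicit false

namespace ACpFrege

/-- The final statement: one family of CNFs for all primes `p` and all systems; all depths `d` with `(log n)^(d+1) ≤ n^(1/5000)`
(in particular every fixed depth, for all large `n`). -/
def StatementX : Prop :=
  ∃ (F : ℕ → CNF) (c : ℕ), (∀ n, (F n).Unsat ∧ (F n).size ≤ (n + 2) ^ c ∧ ∀ C ∈ F n, C.length ≤ 8 ∧ ∀ l ∈ C, l.1 < n) ∧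
    ∀ p : ℕ, p.Prime → ∀ S : List (Rule p), (∀ R ∈ S, R.Sound) → ∃ n₀ : ℕ, ∀ n ≥ n₀, ∀ d : ℕ,
      Real.log n ^ (d + 1) ≤ (n : ℝ) ^ ((1 : ℝ) / 5000) →
      ∀ π : List (Fm p), Refutes S d (F n) π → (2 : ℝ) ^ ((n : ℝ) ^ ((1 : ℝ) / (5000 * (d + 1)))) ≤ psize π

end ACpFrege
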