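import Pool.Agent.H65.AF.ADefs

/-!
helper65 (project MP_28250c_AF): definitions for Parts B and C: antisymmetric exponent matrices, moves, masked Hermitian
matrices, top eigenvectors with positive phase function, nice matrices, and the statement of Part C.
-/

set_option autoImplicit false

namespace ACpFrege

/-- The root of unity `exp (2 π i k / q)`. -/
noncomputable def om (q : ℕ) (k : ZMod q) : ℂ := Complex.exp (2 * Real.pi * Complex.I * (k.val : ℂ) / (q : ℂ))

/-- The antisymmetric matrix with the entries `c u v` above the diagonal. -/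
def anti {M q : ℕ} (c : Fin M → Fin M → ZMod q) : Fin M → Fin M → ZMod q :=
  fun u v => if u < v then c u v else if v < u then -c v u else 0

/-- The move of the variable `x_uv`. -/
def mvx {M : ℕ} (q : ℕ) (u v : Fin M) : Fin M → Fin M → ZMod q :=
  fun i j => (if i = u ∧ j = v then 1 else 0) - (if i = v ∧ j = u then 1 else 0)

/-- The `Z/q`-valued variables: `x_uv` (`u, v < M`) and `y_(v,t)` (`v < M`, `t ≤ M`). -/
abbrev Vr (M : ℕ) := (Fin M × Fin M) ⊕ (Fin M × Fin (M + 1))

/-- The move of a variable; that of `y_(v,t)` is the sum of the moves of `x_vu`, `u < t`. -/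
def mv {M : ℕ} (q : ℕ) : Vr M → Fin M → Fin M → ZMod q
  | .inl (u, v) => mvx q u v
  | .inr (v, t) => ∑ u ∈ Finset.univ.filter (fun u : Fin M => u.val < t.val), mvx q v u

/-- The matrix `w` with the entry `(u,v)` multiplied by `om (a u v)`. -/
noncomputable def msk {M q : ℕ} (a : Fin M → Fin M → ZMod q) (w : Matrix (Fin M) (Fin M) ℂ) : Matrix (Fin M) (Fin M) ℂ :=
  fun u v => w u v * om q (a u v)

/-- Rows and columns with index in `W` are replaced by zeros. -/
def zr {M : ℕ} (W : Finset (Fin M)) (H : Matrix (Fin M) (Fin M) ℂ) : Matrix (Fin M) (Fin M) ℂ :=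
  fun u v => if u ∈ W ∨ v ∈ W then 0 else H u v

/-- The squared norm. -/
noncomputable def nsq {ι : Type} [Fintype ι] (x : ι → ℂ) : ℝ := ∑ u, ‖x u‖ ^ 2

/-- The Hermitian form. -/
noncomputable def ip {ι : Type} [Fintype ι] (x y : ι → ℂ) : ℂ := ∑ u, (starRingEnd ℂ) (x u) * y u

/-- `x` is an eigenvector (or 0) of `B` for the eigenvalue `l`, and `l` is at least the largest eigenvalue. -/
def Top {ι : Type} [Fintype ι] (B : Matrix ι ι ℂ) (l : ℝ) (x : ι → ℂ) : Prop :=
  B.mulVec x = (l : ℂ) • x ∧ ∀ y : ι → ℂ, (ip y (B.mulVec y)).re ≤ l * nsq y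

/-- The phase function. -/
noncomputable def Ph {M : ℕ} (q : ℕ) (f : Fin M → ℝ) (x : Fin M → ℂ) : ℂ := ∑ u, (f u : ℂ) * x u ^ q

/-- The unit eigenvectors of the largest eigenvalue, if this is positive, with positive phase function. -/
def TT {M : ℕ} (q : ℕ) (f : Fin M → ℝ) (B : Matrix (Fin M) (Fin M) ℂ) : Set (Fin M → ℂ) :=
  {x | nsq x = 1 ∧ (∃ l : ℝ, 0 < l ∧ Top B l x) ∧ ∃ r : ℝ, 0 < r ∧ Ph q f x = r}

/-- `T(B)` and the sets `T` of all minors with at most two rows zeroed are orbits of the group of the `q`-th roots of unity,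
and they are close to each other. -/
def Nice {M : ℕ} (q : ℕ) (f : Fin M → ℝ) (B : Matrix (Fin M) (Fin M) ℂ) : Prop :=
  ∀ W : Finset (Fin M), W.card ≤ 2 → ∃ x x' : Fin M → ℂ,
    TT q f B = Set.range (fun k : ZMod q => om q k • x) ∧ TT q f (zr W B) = Set.range (fun k : ZMod q => om q k • x') ∧
    nsq (x - x') ≤ 1 / 100

/-- The total move of a list of moves. -/
def tot {M q : ℕ} (l : List (Vr M × ZMod q)) : Fin M → Fin M → ZMod q := (l.map fun z => z.2 • mv q z.1).sum

/-- All matrices reached from `a` by at most `L` moves are nice. -/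
def AllNice {M q : ℕ} (L : ℕ) (f : Fin M → ℝ) (w : Matrix (Fin M) (Fin M) ℂ) (a : Fin M → Fin M → ZMod q) : Prop :=
  ∀ l : List (Vr M × ZMod q), l.length ≤ L → Nice q f (msk (a + tot l) w)

open Classical in
/-- The statement of Part C (to be proved for every `q ≥ 3`): for all large `M` there are a Hermitian matrix and signs such that
a proportion at least `1 / M^2` of all exponent matrices is nice together with all matrices reached by `L ≤ M^(1/400)` moves. -/
def PartC (q : ℕ) [NeZero q] : Prop :=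
  ∃ M₀ : ℕ, ∀ M ≥ M₀, ∀ L : ℕ, L ^ 400 ≤ M → ∃ (w : Matrix (Fin M) (Fin M) ℂ) (f : Fin M → ℝ), w.IsHermitian ∧
    (∀ u, f u = 1 ∨ f u = -1) ∧
    Fintype.card (Fin M → Fin M → ZMod q) ≤
      M ^ 2 * (Finset.univ.filter fun c : Fin M → Fin M → ZMod q => AllNice L f w (anti c)).card

end ACpFrege
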