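import Pool.Agent.H65.AF.GDefs

/-!
helper65 (project MP_28250c_AF): definitions for Part C (random matrices): eigenvalues, the finite probability space, the
random matrix, the base event.
-/

set_option autoImplicit false

namespace ACpFrege

variable {ι : Type} [Fintype ι] [DecidableEq ι]

/-- The `j`-th largest eigenvalue of a Hermitian matrix (`j = 0` is the largest one). -/
noncomputable def lam (H : Matrix ι ι ℂ) (j : ℕ) : ℝ :=
  if h : H.IsHermitian ∧ j < Fintype.card ι then h.1.eigenvalues₀ ⟨j, h.2⟩ else 0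

/-- The `j`-th eigenvector (orthonormal, belonging to `lam H j`). -/
noncomputable def xi (H : Matrix ι ι ℂ) (j : ℕ) : ι → ℂ :=
  if h : H.IsHermitian ∧ j < Fintype.card ι then
    (h.1.eigenvectorBasis ((Fintype.equivOfCardEq (Fintype.card_fin _)) ⟨j, h.2⟩)).ofLp else 0

/-- The average over a finite type. -/
noncomputable def av {Ω : Type} [Fintype Ω] (f : Ω → ℝ) : ℝ := (∑ x, f x) / Fintype.card Ω

open Classical in
/-- The probability of a property on a finite type with the uniform distribution. -/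
noncomputable def pr {Ω : Type} [Fintype Ω] (A : Ω → Prop) : ℝ := av fun x => if A x then 1 else 0

/-- The sample space: `b` layers of `M × M` elements of `Z/2q`. -/
abbrev Om (b M q : ℕ) := Fin b → Fin M → Fin M → ZMod (2 * q)

/-- The Hermitian matrix of one layer: entries are `2q`-th roots of unity above the diagonal, signs on the diagonal. -/
noncomputable def lay {M q : ℕ} (o : Fin M → Fin M → ZMod (2 * q)) : Matrix (Fin M) (Fin M) ℂ :=
  fun u v => if u < v then om (2 * q) (o u v) else if v < u then (starRingEnd ℂ) (om (2 * q) (o v u)) else (-1) ^ (o u u).val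

/-- The random matrix: the normalised sum of the layers. -/
noncomputable def HH {b M q : ℕ} (o : Om b M q) : Matrix (Fin M) (Fin M) ℂ :=
  fun u v => ((Real.sqrt b)⁻¹ : ℂ) * ∑ i, lay (o i) u v

/-- The spectral sum above the spectrum. -/
noncomputable def XX {M : ℕ} (b : ℕ) (H : Matrix (Fin M) (Fin M) ℂ) : ℝ :=
  ∑ j ∈ Finset.Ico 1 M, 1 / (lam H 0 - lam H j + 6 / Real.sqrt b)

/-- The base event: the largest eigenvalue is in a window above `θ`, the others are below `θ - 4g`, and the spectral sum of the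
others at `θ` is at most `1.6 √M`. -/
def Base {M : ℕ} (θ g : ℝ) (H : Matrix (Fin M) (Fin M) ℂ) : Prop :=
  θ + 2 * g ≤ lam H 0 ∧ lam H 0 ≤ θ + 4 * g ∧ lam H 1 ≤ θ - 4 * g ∧
    ∑ j ∈ Finset.Ico 1 M, 1 / (θ - lam H j) ≤ 1.6 * Real.sqrt M

/-- `g = L^16 / √M`. -/
noncomputable def gg (M L : ℕ) : ℝ := (L : ℝ) ^ 16 / Real.sqrt M

/-- Output of C1. -/
def OutC1 : Prop := ∀ M q : ℕ, 1 ≤ M → 3 ≤ q → ∀ η : ℝ, 0 < η → ∃ b₀ : ℕ, ∀ b ≥ b₀, ∀ [NeZero q],
  av (fun o : Om b M q => lam (HH o) 0) ≤ 2 * Real.sqrt M + η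

/-- Output of C2. -/
def OutC2 : Prop := ∀ M q b : ℕ, 1 ≤ M → 3 ≤ q → 1 ≤ b → ∀ [NeZero q],
  av (fun o : Om b M q => (lam (HH o) 0 - av (fun o : Om b M q => lam (HH o) 0)) ^ 2) ≤ 3

/-- Output of C3-C5: for all large `M`, with `L^400 ≤ M < (L+1)^400`, and all large `b` the base event has probability at least
`1/M` for some `θ`. -/
def OutC5 : Prop := ∀ q : ℕ, 3 ≤ q → ∃ M₀ : ℕ, ∀ M ≥ M₀, ∀ L : ℕ, L ^ 400 ≤ M → M < (L + 1) ^ 400 →
  ∃ b₀ : ℕ, ∀ b ≥ b₀, ∀ [NeZero q], ∃ θ : ℝ, 1.98 * Real.sqrt M ≤ θ ∧ θ ≤ 2.1 * Real.sqrt M ∧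
    1 / (M : ℝ) ≤ pr (fun o : Om b M q => Base θ (gg M L) (HH o))

end ACpFrege
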